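import Pool.Agent.H20.Sep

/-! Tree decompositions with bags of bounded independence number. -/

set_option autoImplicit false
set_option linter.unusedSectionVars false

namespace Pool.Agent.H20

open Finset Pool.Agent.H112R3.TA

variable {V : Type} [Fintype V] [DecidableEq V] {G : SimpleGraph V}

/-- hitting all copies of `P` -/
theorem hit_copies {α : Type} [Fintype α] {P : SimpleGraph α} {l k t : ℕ} (hl : 1 ≤ l)
    (hα : Fintype.card α ≤ l) (ht : 1 ≤ t) (h : KF G t) (hno : IsEmpty (Cop (Fin k) P ↪g G)) :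
    ∃ S : Finset V, al G S ≤ eC l k t ∧ ∀ φ : P ↪g G, ∃ x, φ x ∈ S := by
  classical
  obtain ⟨S, hS, hS'⟩ := ep (G := G) (l := l) (M := k) hl ht h
    (fun F => ∃ φ : P ↪g G, F = univ.image φ) (by
      rintro F ⟨φ, rfl⟩
      exact card_image_le.trans (by rw [card_univ]; exact hα)) (by
      intro e he hanti
      choose φ hφ using fun i : Fin k => he i.val i.isLt
      have hmem : ∀ (i : Fin k) x, φ i x ∈ e i.val := by
        intro i x
        rw [hφ i]
        exact mem_image_of_mem _ (mem_univ _)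
      have hne : ∀ (i j : Fin k) x y, i ≠ j → ¬ G.Adj (φ i x) (φ j y) ∧ φ i x ≠ φ j y := by
        intro i j x y hij
        rcases lt_or_gt_of_ne (fun h => hij (Fin.ext h) : i.val ≠ j.val) with h1 | h1
        · have := hanti j.val j.isLt i.val h1 _ (hmem j y) _ (hmem i x)
          push Not at this
          exact this
        · have := hanti i.val i.isLt j.val h1 _ (hmem i x) _ (hmem j y)
          push Not at this
          exact ⟨fun h' => this.1 h'.symm, this.2.symm⟩
      refine hno.false ⟨⟨fun s => φ s.1 s.2, ?_⟩, ?_⟩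
      · rintro ⟨i, x⟩ ⟨j, y⟩ hxy
        by_cases hij : i = j
        · subst hij
          have h1 : x = y := (φ i).injective hxy
          rw [h1]
        · exact absurd hxy (hne i j x y hij).2
      · rintro ⟨i, x⟩ ⟨j, y⟩
        change G.Adj (φ i x) (φ j y) ↔ (i = j ∧ P.Adj x y)
        by_cases hij : i = j
        · subst hij
          rw [(φ i).map_adj_iff]
          simp
        · constructor
          · intro h'; exact absurd h' (hne i j x y hij).1
          · intro h'; exact absurd h'.1 hij)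
  refine ⟨S, hS, fun φ => ?_⟩
  obtain ⟨z, hz⟩ := hS' _ ⟨φ, rfl⟩
  rw [mem_inter, mem_image] at hz
  obtain ⟨⟨x, _, rfl⟩, hzS⟩ := hz
  exact ⟨x, hzS⟩

lemma Spi_nbr {γ : Type} {q : Fin 3 → γ} (hq : Function.Surjective q) {n : ℕ} (hn : 1 ≤ n)
    (s : γ ⊕ (Fin 3 × Fin n)) : ∃ t, (Spi γ q n).Adj s t := by
  rcases s with u | ⟨a, x⟩
  · obtain ⟨a, ha⟩ := hq u
    exact ⟨.inr (a, ⟨0, hn⟩), ha, rfl⟩
  · by_cases hx : x.val = 0
    · exact ⟨.inl (q a), rfl, hx⟩
    · have := x.isLt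
      exact ⟨.inr (a, ⟨x.val - 1, by omega⟩), rfl, Or.inr (by simp only; omega)⟩

/-- copies in `G` with a set of isolated vertices -/
lemma copy_del {γ : Type} {q : Fin 3 → γ} (hq : Function.Surjective q) {n : ℕ} (hn : 1 ≤ n)
    {S : Finset V} (hS : ∀ φ : Spi γ q n ↪g G, ∃ x, φ x ∈ S) : IsEmpty (Spi γ q n ↪g del G S) := by
  refine ⟨fun φ => ?_⟩
  have hout : ∀ s, φ s ∉ S := by
    intro s
    obtain ⟨t, ht⟩ := Spi_nbr hq hn s
    exact (φ.map_adj_iff.2 ht).2.1
  obtain ⟨x, hx⟩ := hS ⟨⟨φ, φ.injective⟩, by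
    intro s t
    change G.Adj (φ s) (φ t) ↔ _
    rw [← φ.map_adj_iff]
    exact ⟨fun h => ⟨h, hout s, hout t⟩, fun h => h.1⟩⟩
  exact hout x hx

lemma KF_del {t : ℕ} (ht : 1 ≤ t) (h : KF G t) (S : Finset V) : KF (del G S) t := by
  intro X Y hX hY hXi hYi hXY
  obtain ⟨x0, hx0⟩ : X.Nonempty := card_pos.1 (by omega)
  obtain ⟨y0, hy0⟩ : Y.Nonempty := card_pos.1 (by omega)
  have hXS : ∀ x ∈ X, x ∉ S := fun x hx => (hXY x hx y0 hy0).2.1
  have hYS : ∀ y ∈ Y, y ∉ S := fun y hy => (hXY x0 hx0 y hy).2.2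
  refine h X Y hX hY ?_ ?_ (fun x hx y hy => (hXY x hx y hy).1)
  · intro x hx y hy hxy hadj
    exact hXi hx hy hxy ⟨hadj, hXS x hx, hXS y hy⟩
  · intro x hx y hy hxy hadj
    exact hYi hx hy hxy ⟨hadj, hYS x hx, hYS y hy⟩

/-- constants -/
def cT (n t k : ℕ) : ℕ := cS n t + (eC (3 * n + 3) k t + eC (3 * n + 3) k t)

/-- constants -/
def cK (n t k : ℕ) : ℕ := 8 * (2 * cT n t k + 1) + cT n t k

theorem main_td {n t k : ℕ} (hn : 1 ≤ n) (ht : 1 ≤ t) (h : KF G t)
    (hS : IsEmpty (Cop (Fin k) (SS n) ↪g G)) (hL : IsEmpty (Cop (Fin k) (LL n) ↪g G)) :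
    ∃ r par B, IsTD G univ ∅ (cK n t k) r par B := by
  classical
  obtain ⟨S1, hS1, hS1'⟩ := hit_copies (G := G) (P := SS n) (l := 3 * n + 3) (by omega)
    (by simp; omega) ht h hS
  obtain ⟨S2, hS2, hS2'⟩ := hit_copies (G := G) (P := LL n) (l := 3 * n + 3) (by omega)
    (by simp; omega) ht h hL
  set Sh := S1 ∪ S2 with hSh
  have hns : NS (del G Sh) n := by
    constructor
    · apply copy_del (q := fun _ => ()) (fun u => ⟨0, rfl⟩) hn
      intro φ
      obtain ⟨x, hx⟩ := hS1' φ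
      exact ⟨x, mem_union_left _ hx⟩
    · apply copy_del (q := id) (fun u => ⟨u, rfl⟩) hn
      intro φ
      obtain ⟨x, hx⟩ := hS2' φ
      exact ⟨x, mem_union_right _ hx⟩
  have hKF : KF (del G Sh) t := KF_del ht h Sh
  set c := cT n t k with hc
  refine td_of_sep (G := G) c (8 * (2 * c + 1)) (2 * c + 1) (by omega) (by omega) ?_
    univ ∅ (empty_subset _) (by rw [al_empty]; exact Nat.zero_le _)
  intro I _ hIc
  obtain ⟨Q, hQ, hQbal⟩ := sepL ht hKF hns I
  have hal : al G (Q ∪ Sh) ≤ c := by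
    have h1 : al G Q ≤ al (del G Sh) Q := by
      refine al_le_iff.2 fun J hJ hi => le_al hJ ?_
      intro x hx y hy hxy hadj
      exact hi hx hy hxy hadj.1
    have h2 := al_union_le (G := G) Q Sh
    have h3 := al_union_le (G := G) S1 S2
    rw [hc, cT]
    rw [← hSh] at h3
    omega
  obtain ⟨A, B, h1, h2, h3, h4, h5, h6, h7⟩ := exists_split (G := G) (Q ∪ Sh) I (2 * c + 1)
    (by omega) (by
      intro s hs
      have hsQ : s ∉ Q := fun h => hs (mem_union_left _ h)
      have h8 := hQbal s hsQ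
      have h9 : (I ∩ comp G (Q ∪ Sh) s).card ≤ (I ∩ comp (del G Sh) Q s).card := by
        apply card_le_card
        intro x hx
        rw [mem_inter, mem_comp] at hx ⊢
        refine ⟨hx.1, hx.2.mono ?_⟩
        intro a b hab
        have ha := hab.2.1
        have hb := hab.2.2
        rw [mem_union, not_or] at ha hb
        exact ⟨⟨hab.1, ha.2, hb.2⟩, ha.1, hb.1⟩
      omega)
  rw [hIc] at h6 h7
  exact ⟨Q ∪ Sh, A, B, h1, h2, h3, h4, h5, hal, h6, h7⟩

end Pool.Agent.H20
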