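import Pool.Agent.H20.GyarBig
import Pool.Agent.H20.TD

/-! Dominated balanced separators in graphs without many disjoint spiders. -/

set_option autoImplicit false
set_option linter.unusedSectionVars false

namespace Pool.Agent.H20

open Finset Pool.Agent.H112R3.TA

variable {V : Type} [Fintype V] [DecidableEq V] {G : SimpleGraph V}

/-- a small vertex set whose closed neighbourhood meets all copies of `P` -/
theorem dom_copies {α : Type} [Fintype α] {P : SimpleGraph α} {l k : ℕ}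
    (hα : Fintype.card α ≤ l) (hno : IsEmpty (Cop (Fin k) P ↪g G)) :
    ∃ U : Finset V, U.card ≤ k * l ∧ ∀ φ : P ↪g G, ∃ x, φ x ∈ U.biUnion (cnb G) := by
  classical
  by_contra hcon
  push Not at hcon
  have hex : Nonempty (P ↪g G) := by
    obtain ⟨φ, _⟩ := hcon ∅ (by simp)
    exact ⟨φ⟩
  have key : ∀ j, j ≤ k → ∃ φ : ℕ → (P ↪g G), ∀ i < j, ∀ i' < i, ∀ x y,
      ¬ G.Adj (φ i' x) (φ i y) ∧ φ i' x ≠ φ i y := by
    intro j
    induction j with
    | zero =>
      intro _
      exact ⟨fun _ => hex.some, fun i hi => absurd hi (Nat.not_lt_zero i)⟩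
    | succ j ih =>
      intro hj
      obtain ⟨φ, hφ⟩ := ih (by omega)
      let U : Finset V := (range j).biUnion (fun i => univ.image (φ i))
      have hU : U.card ≤ k * l := by
        refine card_biUnion_le.trans ?_
        calc ∑ i ∈ range j, (univ.image (φ i)).card ≤ ∑ i ∈ range j, l :=
              Finset.sum_le_sum fun i _ => card_image_le.trans (by rw [card_univ]; exact hα)
          _ = j * l := by simp
          _ ≤ k * l := Nat.mul_le_mul_right _ (by omega)
      obtain ⟨φ', hφ'⟩ := hcon U hU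
      refine ⟨Function.update φ j φ', ?_⟩
      intro i hi i' hi' x y
      rw [Function.update_of_ne (by omega : i' ≠ j)]
      rcases Nat.lt_succ_iff_lt_or_eq.1 hi with h | h
      · rw [Function.update_of_ne h.ne]
        exact hφ i h i' hi' x y
      · subst h
        rw [Function.update_self]
        have h1 := hφ' y
        rw [mem_biUnion] at h1
        push Not at h1
        have h2 := h1 (φ i' x) (by
          rw [mem_biUnion]
          exact ⟨i', mem_range.2 hi', mem_image_of_mem _ (mem_univ _)⟩)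
        rw [mem_cnb] at h2
        push Not at h2
        exact h2
  obtain ⟨φ, hφ⟩ := key k le_rfl
  have hne : ∀ (i j : Fin k) x y, i ≠ j → ¬ G.Adj (φ i x) (φ j y) ∧ φ i x ≠ φ j y := by
    intro i j x y hij
    rcases lt_or_gt_of_ne (fun h => hij (Fin.ext h) : i.val ≠ j.val) with h1 | h1
    · exact hφ j j.isLt i h1 x y
    · have := hφ i i.isLt j h1 y x
      exact ⟨fun h' => this.1 h'.symm, this.2.symm⟩
  refine hno.false ⟨⟨fun s => φ s.1 s.2, ?_⟩, ?_⟩
  · rintro ⟨i, x⟩ ⟨j, y⟩ hxy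
    by_cases hij : i = j
    · subst hij
      have h1 : x = y := (φ i).injective hxy
      rw [h1]
    · exact absurd hxy (hne i j x y hij).2
  · rintro ⟨i, x⟩ ⟨j, y⟩
    change G.Adj (φ i x) (φ j y) ↔ (i = j ∧ P.Adj x y)
    by_cases hij : i = j
    · subst hij
      rw [(φ i).map_adj_iff]
      simp
    · constructor
      · intro h'; exact absurd h' (hne i j x y hij).1
      · intro h'; exact absurd h'.1 hij

/-- balanced separators dominated by few vertices -/
theorem dom_sep {n k : ℕ} (hn : 1 ≤ n) (Big : Finset V → Prop)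
    (hmono : ∀ A B : Finset V, A ⊆ B → Big A → Big B)
    (hint : ∀ A B : Finset V, Big A → Big B → (A ∩ B).Nonempty)
    (hS : IsEmpty (Cop (Fin k) (SS n) ↪g G)) (hL : IsEmpty (Cop (Fin k) (LL n) ↪g G)) :
    ∃ Y : Finset V, Y.card ≤ (2 * k + 1) * (3 * n + 3) ∧
      ∀ s, s ∉ Y.biUnion (cnb G) → ¬ Big (comp G (Y.biUnion (cnb G)) s) := by
  classical
  obtain ⟨Y1, hY1, hY1'⟩ := dom_copies (G := G) (P := SS n) (l := 3 * n + 3)
    (by simp; omega) hS
  obtain ⟨Y2, hY2, hY2'⟩ := dom_copies (G := G) (P := LL n) (l := 3 * n + 3)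
    (by simp; omega) hL
  set Z := (Y1 ∪ Y2).biUnion (cnb G) with hZ
  have hZ1 : Y1.biUnion (cnb G) ⊆ Z := biUnion_subset_biUnion_of_subset_left _ subset_union_left
  have hZ2 : Y2.biUnion (cnb G) ⊆ Z := biUnion_subset_biUnion_of_subset_left _ subset_union_right
  have hns : NS (del G Z) n := by
    constructor
    · apply copy_del (q := fun _ => ()) (fun u => ⟨0, rfl⟩) hn
      intro φ
      obtain ⟨x, hx⟩ := hY1' φ
      exact ⟨x, hZ1 hx⟩
    · apply copy_del (q := id) (fun u => ⟨u, rfl⟩) hn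
      intro φ
      obtain ⟨x, hx⟩ := hY2' φ
      exact ⟨x, hZ2 hx⟩
  obtain ⟨U, hU, hUZ, hUbal⟩ : ∃ U : Finset V, U.card ≤ 3 * n + 3 ∧ (∀ u ∈ U, u ∉ Z) ∧
      ∀ s, s ∉ Z ∪ U.biUnion (cnb (del G Z)) →
        ¬ Big (comp (del G Z) (Z ∪ U.biUnion (cnb (del G Z))) s) := by
    by_contra hcon
    push Not at hcon
    exact gyarfas_big (G := del G Z) (n := n) Z Big hmono hint
      (fun U hU hU' => hcon U hU hU') hns
  refine ⟨Y1 ∪ Y2 ∪ U, ?_, ?_⟩
  · refine (card_union_le _ _).trans ?_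
    have := card_union_le Y1 Y2
    have h3 : (2 * k + 1) * (3 * n + 3) = k * (3 * n + 3) + k * (3 * n + 3) + (3 * n + 3) := by
      ring
    omega
  · intro s hs hbig
    set Q := (Y1 ∪ Y2 ∪ U).biUnion (cnb G) with hQ
    have hZQ : Z ⊆ Q := biUnion_subset_biUnion_of_subset_left _ subset_union_left
    have hUQ : ∀ x, x ∉ Q → x ∉ Z ∪ U.biUnion (cnb (del G Z)) := by
      intro x hx hx'
      rcases mem_union.1 hx' with h | h
      · exact hx (hZQ h)
      · obtain ⟨u, hu, hxu⟩ := mem_biUnion.1 h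
        apply hx
        rw [hQ, mem_biUnion]
        refine ⟨u, mem_union_right _ hu, ?_⟩
        rw [mem_cnb] at hxu ⊢
        rcases hxu with h | h
        · exact Or.inl h.1
        · exact Or.inr h
    refine hUbal s (hUQ s hs) (hmono _ _ ?_ hbig)
    intro x hx
    rw [mem_comp] at hx ⊢
    refine hx.mono ?_
    intro a b hab
    exact ⟨⟨hab.1, fun h => hab.2.1 (hZQ h), fun h => hab.2.2 (hZQ h)⟩,
      hUQ a hab.2.1, hUQ b hab.2.2⟩

/-- `H` is an induced minor of `G` -/
def IsInducedMinor {α V : Type} (H : SimpleGraph α) (G : SimpleGraph V) : Prop :=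
  ∃ B : α → Set V, (∀ a, (G.induce (B a)).Connected) ∧
    (∀ a b, a ≠ b → Disjoint (B a) (B b)) ∧
    (∀ a b, a ≠ b → (H.Adj a b ↔ ∃ x ∈ B a, ∃ y ∈ B b, G.Adj x y))

omit [Fintype V] [DecidableEq V] in
/-- contracting the centres of the spiders -/
theorem cop_minor {γ ι : Type} [Nonempty γ] {q : Fin 3 → γ} {n : ℕ}
    (φ : Cop ι (Spi γ q n) ↪g G) : IsInducedMinor (Cop ι (SS n)) G := by
  classical
  let B : ι × (Unit ⊕ (Fin 3 × Fin n)) → Set V := fun s => match s.2 with
    | .inl _ => Set.range (fun u : γ => φ (s.1, .inl u))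
    | .inr x => {φ (s.1, .inr x)}
  have memB : ∀ i (a : Unit ⊕ (Fin 3 × Fin n)) v, v ∈ B (i, a) →
      ∃ b : γ ⊕ (Fin 3 × Fin n), v = φ (i, b) ∧
        (a = Sum.map (fun _ => ()) id b) := by
    rintro i (⟨⟩ | x) v hv
    · obtain ⟨u, rfl⟩ := hv
      exact ⟨.inl u, rfl, rfl⟩
    · have : v = φ (i, .inr x) := hv
      exact ⟨.inr x, this, rfl⟩
  have memB' : ∀ i (b : γ ⊕ (Fin 3 × Fin n)), φ (i, b) ∈ B (i, Sum.map (fun _ => ()) id b) := by
    rintro i (u | x)
    · exact ⟨u, rfl⟩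
    · exact rfl
  refine ⟨B, ?_, ?_, ?_⟩
  · rintro ⟨i, ⟨⟩ | x⟩
    · have hne : Nonempty (B (i, .inl ())) := by
        obtain ⟨u⟩ := (inferInstance : Nonempty γ)
        exact ⟨⟨_, u, rfl⟩⟩
      refine SimpleGraph.Connected.mk ?_
      rintro ⟨_, u, rfl⟩ ⟨_, v, rfl⟩
      by_cases huv : u = v
      · subst huv
        exact SimpleGraph.Reachable.refl _
      · apply SimpleGraph.Adj.reachable
        change G.Adj (φ (i, .inl u)) (φ (i, .inl v))
        rw [φ.map_adj_iff]
        exact ⟨rfl, huv⟩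
    · have hne : Nonempty (B (i, .inr x)) := ⟨⟨_, rfl⟩⟩
      refine SimpleGraph.Connected.mk ?_
      rintro ⟨a, ha⟩ ⟨b, hb⟩
      have ha' : a = φ (i, .inr x) := ha
      have hb' : b = φ (i, .inr x) := hb
      subst ha' hb'
      exact SimpleGraph.Reachable.refl _
  · rintro ⟨i, a⟩ ⟨j, b⟩ hab
    rw [Set.disjoint_left]
    intro v hv hv'
    obtain ⟨c, hc, hc'⟩ := memB _ _ _ hv
    obtain ⟨d, hd, hd'⟩ := memB _ _ _ hv'
    rw [hc] at hd
    have := φ.injective hd
    rw [Prod.mk.injEq] at this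
    apply hab
    rw [hc', hd', this.1, this.2]
  · rintro ⟨i, a⟩ ⟨j, b⟩ hab
    constructor
    · rintro ⟨hij, hadj⟩
      simp only at hij
      subst hij
      rcases a with ⟨⟩ | x <;> rcases b with ⟨⟩ | y
      · exact absurd rfl hadj
      · refine ⟨_, memB' i (.inl (q y.1)), _, memB' i (.inr y), ?_⟩
        rw [φ.map_adj_iff]
        exact ⟨rfl, rfl, hadj.2⟩
      · refine ⟨_, memB' i (.inr x), _, memB' i (.inl (q x.1)), ?_⟩
        rw [φ.map_adj_iff]
        exact ⟨rfl, rfl, hadj.2⟩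
      · refine ⟨_, memB' i (.inr x), _, memB' i (.inr y), ?_⟩
        rw [φ.map_adj_iff]
        exact ⟨rfl, hadj⟩
    · rintro ⟨v, hv, w, hw, hvw⟩
      obtain ⟨c, rfl, rfl⟩ := memB _ _ _ hv
      obtain ⟨d, rfl, rfl⟩ := memB _ _ _ hw
      rw [φ.map_adj_iff] at hvw
      obtain ⟨hij, hcd⟩ := hvw
      simp only at hij hcd
      subst hij
      refine ⟨rfl, ?_⟩
      rcases c with u | x <;> rcases d with v | y
      · exact absurd rfl hab
      · exact ⟨rfl, hcd.2⟩
      · exact ⟨rfl, hcd.2⟩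
      · exact hcd

omit [Fintype V] [DecidableEq V] in
lemma IsInducedMinor.of_emb {α β : Type} {H : SimpleGraph α} {K : SimpleGraph β} (ψ : H ↪g K)
    (h : IsInducedMinor K G) : IsInducedMinor H G := by
  obtain ⟨B, h1, h2, h3⟩ := h
  refine ⟨fun a => B (ψ a), fun a => h1 _, fun a b hab => h2 _ _ (fun h => hab (ψ.injective h)), ?_⟩
  intro a b hab
  rw [← ψ.map_adj_iff]
  exact h3 _ _ (fun h => hab (ψ.injective h))

end Pool.Agent.H20
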