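import Pool.Graph.R_seed8.H112R3.TA.Hit

/-! Small objects in graphs without induced balanced bicliques: either many pairwise anticomplete
ones, or a hitting set of small independence number. -/

set_option autoImplicit false
set_option linter.unusedSectionVars false

namespace Pool.Agent.H20

open Finset Pool.Agent.H112R3.TA

variable {V : Type} [Fintype V] [DecidableEq V] {G : SimpleGraph V}

/-- constants -/
def eN (l M t : ℕ) : ℕ := (l * t + 1) * (2 * M * l + 2)

/-- constants -/
def eC (l M t : ℕ) : ℕ := 4 * l ^ 2 * (eN l M t) ^ 2 * 2 ^ (eN l M t)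

theorem ep {l M t : ℕ} (hl : 1 ≤ l) (ht : 1 ≤ t) (h : KF G t) (Fam : Finset V → Prop)
    (hcard : ∀ F, Fam F → F.card ≤ l)
    (hno : ∀ e : ℕ → Finset V, (∀ i < M, Fam (e i)) →
      (∀ i < M, ∀ j < i, ∀ x ∈ e i, ∀ u ∈ e j, ¬ (G.Adj u x ∨ u = x)) → False) :
    ∃ S : Finset V, al G S ≤ eC l M t ∧ ∀ F, Fam F → (F ∩ S).Nonempty := by
  classical
  let Ω : Type := {F : Finset V // Fam F}
  by_cases hΩ : Nonempty Ω
  swap
  · refine ⟨∅, by rw [al_empty]; exact Nat.zero_le _, ?_⟩
    intro F hF
    exact absurd ⟨⟨F, hF⟩⟩ hΩ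
  let p : Ω → Finset V := fun e => e.1
  have hp : ∀ e, (p e).card ≤ l := fun e => hcard _ e.2
  set N := eN l M t with hNdef
  have hN1 : 1 ≤ N := by rw [hNdef, eN]; nlinarith [Nat.zero_le (l * t), Nat.zero_le (2 * M * l)]
  have hNR : (N : ℝ) = (l * t + 1) * (2 * M * l + 2) := by
    rw [hNdef, eN]; push_cast; ring
  have htN : t ≤ N + 1 := by
    rw [hNdef, eN]
    nlinarith [Nat.zero_le (l * t * (2 * M * l)), Nat.zero_le (2 * M * l),
      Nat.mul_le_mul_right t hl]
  let 𝒮 : Type := {S : Finset V // al G S ≤ N}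
  have h𝒮 : Nonempty 𝒮 := ⟨⟨∅, by rw [al_empty]; exact Nat.zero_le _⟩⟩
  have hlR : (1 : ℝ) ≤ l := by exact_mod_cast hl
  have htR : (1 : ℝ) ≤ t := by exact_mod_cast ht
  have hMR : (0 : ℝ) ≤ M := Nat.cast_nonneg _
  set ε : ℝ := 1 / (4 * l * N * 2 ^ N) with hε
  have hNpos : (1 : ℝ) ≤ N := by exact_mod_cast hN1
  have hpow : (1 : ℝ) ≤ 2 ^ N := one_le_pow₀ (by norm_num)
  have hεpos : 0 < ε := by rw [hε]; positivity
  rcases minimax (I := 𝒮) (J := Ω) (fun S e => if (p e ∩ S.1).Nonempty then 1 else 0) ε with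
    ⟨μ, hμ, hμ1, hμS⟩ | ⟨w, hw, hw1, hle⟩
  · exfalso
    have hS : ∀ S : Finset V, al G S ≤ N → hit μ p S ≤ ε := by
      intro S hSk
      have := hμS ⟨S, hSk⟩
      rw [hit_eq]
      simp only [mul_ite, mul_one, mul_zero] at this
      exact this.le
    set η : ℝ := 1 / (2 * M * l + 2) with hη
    have hden : (0 : ℝ) < 2 * M * l + 2 := by positivity
    have hηpos : 0 < η := by rw [hη]; positivity
    have hNη : (N : ℝ) * η = l * t + 1 := by
      rw [hNR, hη]; field_simp
    have hNε : (l : ℝ) * N * 2 ^ N * ε = 1 / 4 := by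
      rw [hε]; field_simp
    let Z : Finset V := univ.filter (fun u => η ≤ deg G μ p u)
    have hZ : al G Z < N := by
      refine al_high_lt (k := N) (ε := ε) (η := η) h ht htN μ hμ hμ1.le p hp ?_ ?_ Z ?_
      · intro S hSk
        exact hS S hSk
      · rw [hNε, hNη]
        linarith
      · intro u hu
        exact (mem_filter.1 hu).2
    have hε4 : ε ≤ 1 / 4 := by
      rw [hε]
      apply one_div_le_one_div_of_le (by norm_num)
      have h1 : (1 : ℝ) ≤ l * N := by nlinarith
      have h2 : (1 : ℝ) ≤ l * N * 2 ^ N := by nlinarith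
      linarith
    obtain ⟨e, he⟩ := greedy (G := G) hμ hμ1 p (n := l) (M := M) (ε := ε) (η := η) hp hηpos.le Z
      (hS Z hZ.le) (fun u hu => by
        by_contra hcon
        push Not at hcon
        exact hu (mem_filter.2 ⟨mem_univ _, hcon.le⟩)) (by
          have : (M : ℝ) * l * η ≤ 1 / 2 := by
            rw [hη, mul_one_div, div_le_div_iff₀ hden (by norm_num)]
            linarith
          linarith)
    exact hno (fun i => p (e i)) (fun i _ => (e i).2) (fun i hi j hj => (he i hi).2 j hj)
  · refine ⟨univ.filter (fun v => ε / l ≤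
        ∑ S ∈ univ.filter (fun S : 𝒮 => v ∈ S.1), w S), ?_, ?_⟩
    · have h1 := round_al (G := G) (k := N) w hw hw1 (fun S : 𝒮 => S.1) (fun S => S.2) (ε / l)
        (univ.filter (fun v => ε / l ≤ ∑ S ∈ univ.filter (fun S : 𝒮 => v ∈ S.1), w S)) (by
          intro v hv
          exact (mem_filter.1 hv).2)
      set A := al G (univ.filter (fun v => ε / l ≤
        ∑ S ∈ univ.filter (fun S : 𝒮 => v ∈ S.1), w S)) with hA
      have h2 : (A : ℝ) ≤ (eC l M t : ℕ) := by
        have h3 : (A : ℝ) ≤ N / (ε / l) := by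
          rw [le_div_iff₀ (by positivity)]
          exact h1
        refine h3.trans (le_of_eq ?_)
        rw [hε, eC, ← hNdef]
        push_cast
        field_simp
      exact_mod_cast h2
    · intro F hF
      have h1 := hle ⟨F, hF⟩
      by_contra hcon
      rw [not_nonempty_iff_eq_empty] at hcon
      have h2 : ∑ S : 𝒮, w S * (if (p ⟨F, hF⟩ ∩ S.1).Nonempty then (1 : ℝ) else 0) ≤
          ∑ v ∈ F, ∑ S ∈ univ.filter (fun S : 𝒮 => v ∈ S.1), w S := by
        simp_rw [Finset.sum_filter]
        rw [Finset.sum_comm]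
        apply Finset.sum_le_sum
        intro S _
        have h0 := hw S
        split_ifs with h3
        · obtain ⟨v, hv⟩ := h3
          rw [mem_inter] at hv
          have h14 := Finset.single_le_sum (f := fun v => if v ∈ S.1 then w S else 0)
            (s := F) (fun v _ => by split_ifs <;> [exact h0; exact le_rfl]) hv.1
          simp only [hv.2, if_true] at h14
          rw [mul_one]
          exact h14
        · rw [mul_zero]
          apply Finset.sum_nonneg
          intro v _
          split_ifs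
          · exact h0
          · exact le_rfl
      have hne : F.Nonempty := by
        rw [nonempty_iff_ne_empty]
        rintro rfl
        rw [sum_empty] at h2
        linarith
      have h3 : ∑ v ∈ F, ∑ S ∈ univ.filter (fun S : 𝒮 => v ∈ S.1), w S < ∑ v ∈ F, ε / l := by
        apply Finset.sum_lt_sum_of_nonempty hne
        intro v hv
        by_contra hcon2
        push Not at hcon2
        exact Finset.notMem_empty v (hcon ▸ mem_inter.2 ⟨hv, mem_filter.2 ⟨mem_univ _, hcon2⟩⟩)
      rw [Finset.sum_const, nsmul_eq_mul] at h3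
      have h4 : (F.card : ℝ) * (ε / l) ≤ ε := by
        have : (F.card : ℝ) ≤ l := by exact_mod_cast hcard F hF
        calc (F.card : ℝ) * (ε / l) ≤ l * (ε / l) :=
              mul_le_mul_of_nonneg_right this (by positivity)
          _ = ε := by field_simp
      linarith

end Pool.Agent.H20
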