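import Pool.Agent.H20.Host
import Pool.Graph.R_seed8.H112R3.TA.SimMain

/-! The assembly. -/

set_option autoImplicit false
set_option linter.unusedSectionVars false

namespace Pool.Agent.H20

open Finset Pool.Agent.H112R3.TA

/-- treewidth bounded in terms of the clique number -/
def TwOm (k : ℕ) (n : Fin k → ℕ) (H : ∀ i, SimpleGraph (Fin (n i))) (f : ℕ → ℕ) : Prop :=
  ∀ (V : Type) [Fintype V] (G : SimpleGraph V),
        (∀ i, IsEmpty (H i ↪g G)) → ∀ c : ℕ, G.CliqueFree (c + 1) →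
        ∃ (m : ℕ) (T : SimpleGraph (Fin m)) (B : Fin m → Finset V),
          T.IsTree ∧ (∀ v : V, ∃ t, v ∈ B t) ∧
          (∀ u v : V, G.Adj u v → ∃ t, u ∈ B t ∧ v ∈ B t) ∧
          (∀ v : V, (T.induce {t : Fin m | v ∈ B t}).Connected) ∧
          ∀ t, (B t).card ≤ f c + 1

/-- some forbidden graph is contained in a graph with pairwise touching connected classes -/
theorem exists_forb {k : ℕ} {n : Fin k → ℕ} {H : ∀ i, SimpleGraph (Fin (n i))} {f : ℕ → ℕ}
    (hf : TwOm k n H f) {V : Type} [Fintype V] {G : SimpleGraph V} {c r : ℕ}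
    (hc : G.CliqueFree (c + 1)) (hr : f c + 1 < r) (cl : V → Fin r)
    (hcl : ∀ i, H279R3.WConn G {v | cl v = i}) (hsurj : ∀ i, ∃ v, cl v = i)
    (htouch : ∀ i j, i < j → ∃ u v, cl u = i ∧ cl v = j ∧ G.Adj u v) :
    ∃ i, Nonempty (H i ↪g G) := by
  by_contra hcon
  push Not at hcon
  obtain ⟨m, T, B, h1, h2, h3, h4, h5⟩ := hf V G hcon c hc
  have := bag_large h1 h2 h3 h4 h5 cl hcl hsurj htouch
  omega

/-- some forbidden graph is contained in a disjoint union of spiders -/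
theorem exists_spider {k : ℕ} {n : Fin k → ℕ} {H : ∀ i, SimpleGraph (Fin (n i))} {f : ℕ → ℕ}
    (hf : TwOm k n H f) {γ : Type} [Fintype γ] (q : Fin 3 → γ) {K m : ℕ} (hK : ∀ i, n i < K)
    (hm : f (Fintype.card γ + 2) + 1 ≤ m) {M : ℕ} (hM : (m + 1) * (m + 1) ≤ M) :
    ∃ i, Nonempty (H i ↪g Cop (Fin M) (Spi γ q K)) := by
  classical
  have hK1 : 1 ≤ K ∨ k = 0 := by
    rcases Nat.eq_zero_or_pos k with h | h
    · exact Or.inr h
    · have := hK ⟨0, h⟩
      exact Or.inl (by omega)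
  rcases hK1 with hK1 | hk
  · obtain ⟨i, ⟨φ⟩⟩ := exists_forb hf (Host_cliqueFree q (hsrc m) (htgt m) K)
      (r := m + 1) (by omega) (hcl m) (host_conn m q hK1)
      (fun i => ⟨.inl ((i, 0), q 0), rfl⟩) (host_touch m q hK1)
    obtain ⟨φ'⟩ := host_emb (hsrc_inj m) (htgt_inj m) (hsrc_ne_htgt m)
      (by rw [Fintype.card_fin]; exact hK i) φ
    have hcard : Fintype.card (Fin (m + 1) × Fin (m + 1)) ≤ Fintype.card (Fin M) := by
      rw [Fintype.card_prod, Fintype.card_fin, Fintype.card_fin]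
      exact hM
    obtain ⟨g⟩ := Function.Embedding.nonempty_of_card_le hcard
    obtain ⟨ψ⟩ := Cop_emb (Spi γ q K) g
    exact ⟨i, ⟨φ'.trans ψ⟩⟩
  · subst hk
    obtain ⟨i, _⟩ := exists_forb hf (Host_cliqueFree q (hsrc m) (htgt m) 1)
      (r := m + 1) (by omega) (hcl m) (host_conn m q le_rfl)
      (fun i => ⟨.inl ((i, 0), q 0), rfl⟩) (host_touch m q le_rfl)
    exact i.elim0

theorem exists_bip {k : ℕ} {n : Fin k → ℕ} {H : ∀ i, SimpleGraph (Fin (n i))} {f : ℕ → ℕ}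
    (hf : TwOm k n H f) {t : ℕ} (ht : f 2 + 1 < t) :
    ∃ i, Nonempty (H i ↪g completeBipartiteGraph (Fin t) (Fin t)) := by
  classical
  have hcol : (completeBipartiteGraph (Fin t) (Fin t)).Colorable 2 := by
    have := (SimpleGraph.CompleteBipartiteGraph.bicoloring (Fin t) (Fin t)).colorable
    rwa [Fintype.card_bool] at this
  refine exists_forb hf (hcol.cliqueFree (by omega : 2 < 2 + 1)) (r := t) ht (Sum.elim id id)
    ?_ (fun i => ⟨.inl i, rfl⟩) ?_
  · intro i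
    refine WConn_of_base (.inl i) ?_
    rintro (v | v) hv
    · have : v = i := hv
      subst this
      exact ⟨SimpleGraph.Walk.nil, by
        intro x hx
        simp only [SimpleGraph.Walk.support_nil, List.mem_singleton] at hx
        subst hx
        rfl⟩
    · have : v = i := hv
      subst this
      have hadj : (completeBipartiteGraph (Fin t) (Fin t)).Adj (.inr v) (.inl v) := by simp
      refine ⟨SimpleGraph.Walk.cons hadj SimpleGraph.Walk.nil, ?_⟩
      intro x hx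
      simp only [SimpleGraph.Walk.support_cons, SimpleGraph.Walk.support_nil, List.mem_cons,
        List.not_mem_nil, or_false] at hx
      rcases hx with rfl | rfl
      · rfl
      · rfl
  · intro i j _
    exact ⟨.inl i, .inr j, rfl, rfl, by simp⟩

theorem final {k : ℕ} {n : Fin k → ℕ} {H : ∀ i, SimpleGraph (Fin (n i))} {f : ℕ → ℕ}
    (hf : TwOm k n H f) : ∃ K : ℕ, ∀ (V : Type) [Fintype V] (G : SimpleGraph V),
        (∀ i, IsEmpty (H i ↪g G)) →
        ∃ (m : ℕ) (T : SimpleGraph (Fin m)) (B : Fin m → Finset V),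
          T.IsTree ∧ (∀ v : V, ∃ t, v ∈ B t) ∧
          (∀ u v : V, G.Adj u v → ∃ t, u ∈ B t ∧ v ∈ B t) ∧
          (∀ v : V, (T.induce {t : Fin m | v ∈ B t}).Connected) ∧
          ∀ t, ∀ S : Finset V, S ⊆ B t →
            (∀ u ∈ S, ∀ w ∈ S, ¬ G.Adj u w) → S.card ≤ K := by
  classical
  obtain ⟨K, hK1, hK⟩ : ∃ K : ℕ, 1 ≤ K ∧ ∀ i, n i < K := by
    refine ⟨univ.sup n + 1, by omega, fun i => ?_⟩
    have := Finset.le_sup (f := n) (mem_univ i)
    omega
  set m := max (f (Fintype.card Unit + 2) + 1) (f (Fintype.card (Fin 3) + 2) + 1) with hm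
  set M := (m + 1) * (m + 1) with hM
  set t := f 2 + 2 with ht
  obtain ⟨i1, ⟨φ1⟩⟩ := exists_spider hf (γ := Unit) (fun _ => ()) hK (le_max_left _ _)
    (M := M) le_rfl
  obtain ⟨i2, ⟨φ2⟩⟩ := exists_spider hf (γ := Fin 3) id hK (le_max_right _ _) (M := M) le_rfl
  obtain ⟨i3, ⟨φ3⟩⟩ := exists_bip hf (t := t) (by omega)
  refine ⟨cK K t M, ?_⟩
  intro V _ G hG
  have hKF : KF G t := by
    apply KF_of_not_exists
    rintro ⟨g, hg, hg'⟩
    exact (hG i3).false (φ3.trans ⟨⟨g, hg⟩, fun {x y} => hg' x y⟩)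
  have hS : IsEmpty (Cop (Fin M) (SS K) ↪g G) := ⟨fun ψ => (hG i1).false (φ1.trans ψ)⟩
  have hL : IsEmpty (Cop (Fin M) (LL K) ↪g G) := ⟨fun ψ => (hG i2).false (φ2.trans ψ)⟩
  obtain ⟨r, par, B, hB⟩ := main_td hK1 (by omega) hKF hS hL
  obtain ⟨g1, g2, g3, g4, g5⟩ := hB.exists_tree
  refine ⟨r, parTree r par, fun i => B i, g1, g2, g3, ?_, ?_⟩
  · intro v
    obtain ⟨i0, hi0⟩ := g2 v
    have hne : Nonempty ({t : Fin r | v ∈ B t} : Set (Fin r)) := ⟨⟨i0, hi0⟩⟩
    refine SimpleGraph.Connected.mk ?_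
    rintro ⟨x, hx⟩ ⟨y, hy⟩
    obtain ⟨p, hp⟩ := g4 v x y hx hy
    exact ⟨p.induce _ hp⟩
  · intro i S hSB hS'
    exact g5 i S hSB (fun u hu w hw _ => hS' u hu w hw)

end Pool.Agent.H20
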