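import Pool.Agent.H20.Gyar

/-! Gyarfas paths in graphs without spiders, for arbitrary notions of large sets. -/

set_option autoImplicit false
set_option linter.unusedSectionVars false

namespace Pool.Agent.H20

open Finset Pool.Agent.H112R3.TA

variable {V : Type} [Fintype V] [DecidableEq V] {G : SimpleGraph V}

/-- the Gyarfas path argument for graphs without spiders; `Big` is any notion of large vertex
sets for which two large sets intersect -/
theorem gyarfas_big {n : ℕ} (Z : Finset V) (Big : Finset V → Prop)
    (hmono : ∀ A B : Finset V, A ⊆ B → Big A → Big B)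
    (hint : ∀ A B : Finset V, Big A → Big B → (A ∩ B).Nonempty)
    (hbig : ∀ U : Finset V, U.card ≤ 3 * n + 3 → (∀ u ∈ U, u ∉ Z) →
      ∃ s, s ∉ Z ∪ U.biUnion (cnb G) ∧ Big (comp G (Z ∪ U.biUnion (cnb G)) s)) :
    ¬ NS G n := by
  classical
  intro hns
  have key : ∀ r : ℕ, ∃ (f : ℕ → V) (s : V), (∀ i ≤ r, f i ∉ Z) ∧
      IP G f r ∧
      s ∉ Z ∪ ((range r).image f).biUnion (cnb G) ∧
      Big (comp G (Z ∪ ((range r).image f).biUnion (cnb G)) s) ∧
      ∃ z, (del G (Z ∪ ((range r).image f).biUnion (cnb G))).Reachable s z ∧ z ∈ cnb G (f r) := by
    intro r
    induction r with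
    | zero =>
      obtain ⟨s, hs, hs'⟩ := hbig ∅ (by simp) (by simp)
      refine ⟨fun _ => s, s, ?_, ?_, ?_, ?_, s, SimpleGraph.Reachable.refl _, ?_⟩
      · intro i _ h
        exact hs (mem_union_left _ h)
      · intro i j hij hj
        omega
      · simpa using hs
      · simpa using hs'
      · rw [mem_cnb]; right; rfl
    | succ r ih =>
      obtain ⟨f, s, hfZ, hind, hs, hbigs, z, hz, hzf⟩ := ih
      set Q := Z ∪ ((range r).image f).biUnion (cnb G) with hQ
      set Y := ((range (r + 1)).filter (fun i => i ≤ n ∨ r ≤ i + 2 * n + 1)).image f with hY
      have hYc : Y.card ≤ 3 * n + 3 := by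
        refine card_image_le.trans ?_
        have h1 : (range (r + 1)).filter (fun i => i ≤ n ∨ r ≤ i + 2 * n + 1) ⊆
            range (n + 1) ∪ (range (2 * n + 2)).image (fun i => r - i) := by
          intro i hi
          rw [mem_filter, mem_range] at hi
          rw [mem_union, mem_range, mem_image]
          rcases hi.2 with h | h
          · left; omega
          · right
            exact ⟨r - i, by rw [mem_range]; omega, by omega⟩
        refine (card_le_card h1).trans ((card_union_le _ _).trans ?_)
        have h2 := card_image_le (s := range (2 * n + 2)) (f := fun i => r - i)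
        rw [card_range] at h2 ⊢
        omega
      have hYmem : ∀ i, i ≤ r → (i ≤ n ∨ r ≤ i + 2 * n + 1) → f i ∈ Y := by
        intro i hi h
        rw [hY, mem_image]
        exact ⟨i, mem_filter.2 ⟨mem_range.2 (by omega), h⟩, rfl⟩
      obtain ⟨s', hs', hbigs'⟩ := hbig Y hYc (by
          intro u hu
          rw [hY, mem_image] at hu
          obtain ⟨i, hi, rfl⟩ := hu
          rw [mem_filter, mem_range] at hi
          exact hfZ i (by omega))
      set QY := Z ∪ Y.biUnion (cnb G) with hQY
      have hQYmem : ∀ i, i ≤ r → (i ≤ n ∨ r ≤ i + 2 * n + 1) → ∀ x, x ∉ QY →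
          ¬ (G.Adj (f i) x ∨ f i = x) := by
        intro i hi h x hx hcon
        apply hx
        rw [hQY, mem_union, mem_biUnion]
        exact Or.inr ⟨f i, hYmem i hi h, mem_cnb.2 hcon⟩
      have hQmem : ∀ i, i < r → ∀ x, x ∉ Q → ¬ (G.Adj (f i) x ∨ f i = x) := by
        intro i hi x hx hcon
        apply hx
        rw [hQ, mem_union, mem_biUnion]
        exact Or.inr ⟨f i, mem_image.2 ⟨i, mem_range.2 hi, rfl⟩, mem_cnb.2 hcon⟩
      -- common vertex of the two big components
      obtain ⟨a, haI⟩ := hint _ _ hbigs hbigs'
      simp only [mem_inter, mem_comp] at haI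
      obtain ⟨ha1, ha2⟩ := haI
      -- the second component is contained in the first one
      have hsub : ∀ y, (del G QY).Reachable s' y → (del G Q).Reachable s y := by
        intro y0 hy0
        by_contra hcon
        have hmem1 : a ∈ ((comp G Q s : Finset V) : Set V) := by
          rw [mem_coe, mem_comp]; exact ha1
        have hmem2 : y0 ∉ ((comp G Q s : Finset V) : Set V) := by
          rw [mem_coe, mem_comp]; exact hcon
        obtain ⟨v, y, hvy, hv, hy, hy0v⟩ := exists_cross (hy0.symm.trans ha2) hmem2 hmem1
        rw [mem_coe, mem_comp] at hv hy
        have hvQY : v ∉ QY := hvy.2.1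
        have hyQ : y ∉ Q := reach_not_mem hy hs
        have hvQ : v ∈ Q := by
          by_contra hvQ
          apply hv
          have : (del G Q).Adj y v := ⟨hvy.1.symm, hyQ, hvQ⟩
          exact hy.trans this.reachable
        have hvZ : v ∉ Z := fun h => hvQY (mem_union_left _ h)
        have hvne : ∀ k ≤ r, v ≠ f k := by
          intro k hk heq
          rcases Nat.lt_or_ge k r with h | h
          · apply hQmem k h y hyQ
            left
            rw [← heq]
            exact hvy.1
          · have : k = r := by omega
            subst this
            exact hQYmem k le_rfl (Or.inr (by omega)) v hvQY (Or.inr heq.symm)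
        obtain ⟨k0, hk0, hvk0⟩ : ∃ k0, k0 < r ∧ G.Adj v (f k0) := by
          rw [hQ, mem_union, mem_biUnion] at hvQ
          rcases hvQ with h | ⟨u, hu, hvu⟩
          · exact absurd h hvZ
          · rw [mem_image] at hu
            obtain ⟨k, hk, rfl⟩ := hu
            rw [mem_range] at hk
            rw [mem_cnb] at hvu
            rcases hvu with h | h
            · exact ⟨k, hk, h.symm⟩
            · exact absurd h.symm (hvne k hk.le)
        have hmid : ∀ k ≤ r, G.Adj v (f k) → n < k ∧ k + 2 * n + 1 < r := by
          intro k hk hadj
          constructor
          · by_contra hc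
            exact hQYmem k hk (Or.inl (by omega)) v hvQY (Or.inl hadj.symm)
          · by_contra hc
            exact hQYmem k hk (Or.inr (by omega)) v hvQY (Or.inl hadj.symm)
        have hk0' := hmid k0 hk0.le hvk0
        obtain ⟨i, j, hni, hij, hjs, hpass⟩ := exists_pass (n := n) (s := r - n - 2) hind hvne
          hk0.le hvk0 (by omega) (fun k hk hadj => by
            have := hmid k hk hadj
            constructor <;> omega)
        -- the third leg
        let P : Finset V := insert v (comp G Q s ∪ (range (n + 1)).image (fun k => f (r - k)))
        have hvP : v ∈ P := mem_insert_self _ _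
        have hCP : ∀ x, (del G Q).Reachable s x → x ∈ P := fun x hx =>
          mem_insert_of_mem (mem_union_left _ (mem_comp.2 hx))
        have hfP : ∀ k ≤ n, f (r - k) ∈ P := fun k hk =>
          mem_insert_of_mem (mem_union_right _ (mem_image.2 ⟨k, mem_range.2 (by omega), rfl⟩))
        have hadjP : ∀ x y, G.Adj x y → x ∈ P → y ∈ P → (del G (univ \ P)).Adj x y :=
          fun x y h hx hy => ⟨h, by simp [hx], by simp [hy]⟩
        have hreach1 : (del G (univ \ P)).Reachable y z := by
          obtain ⟨w⟩ := hy.symm.trans hz
          refine reach_in_support w (fun x hx => hCP x ?_)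
          exact hy.trans (support_reach w x hx)
        have hreach2 : (del G (univ \ P)).Reachable y (f r) := by
          rw [mem_cnb] at hzf
          rcases hzf with h | h
          · exact hreach1.trans (hadjP _ _ h.symm (hCP z hz) (hfP 0 (by omega))).reachable
          · rw [h]; exact hreach1
        have hreach3 : ∀ k ≤ n, (del G (univ \ P)).Reachable (f r) (f (r - k)) := by
          intro k
          induction k with
          | zero => intro _; exact SimpleGraph.Reachable.refl _
          | succ k ih =>
            intro hk
            refine (ih (by omega)).trans ?_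
            have hadj : G.Adj (f (r - k)) (f (r - (k + 1))) := by
              rw [hind.adj (by omega) (by omega)]
              omega
            exact (hadjP _ _ hadj (hfP k (by omega)) (hfP (k + 1) hk)).reachable
        have hreach : (del G (univ \ P)).Reachable v (f (r - n)) :=
          (hadjP _ _ hvy.1 hvP (hCP y hy)).reachable.trans (hreach2.trans (hreach3 n le_rfl))
        obtain ⟨T, m, hT0, hTm, hTind, hTP, hTdist, _, _⟩ := exists_geod hvP hreach
        -- the length
        have hlen : n + 1 ≤ m := by
          obtain ⟨p, hp⟩ := hreach.exists_walk_length_eq_dist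
          let φ : V → ℕ := fun x => if h : ∃ k, k ≤ n ∧ x = f (r - k) then h.choose + 1 else 0
          have hφ1 : ∀ k ≤ n, φ (f (r - k)) = k + 1 := by
            intro k hk
            have hex : ∃ l, l ≤ n ∧ f (r - k) = f (r - l) := ⟨k, hk, rfl⟩
            have h1 : φ (f (r - k)) = hex.choose + 1 := dif_pos hex
            have h2 := hex.choose_spec
            have h3 := hind.inj (by omega) (by omega) h2.2
            rw [h1]
            have h4 := h2.1
            omega
          have hφ0 : ∀ x, (¬ ∃ k, k ≤ n ∧ x = f (r - k)) → φ x = 0 := fun x hx => dif_neg hx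
          have hlip : ∀ x y, (del G (univ \ P)).Adj x y → φ y ≤ φ x + 1 := by
            intro x1 y1 hxy
            by_cases hy1 : ∃ k, k ≤ n ∧ y1 = f (r - k)
            · obtain ⟨k, hk, rfl⟩ := hy1
              rw [hφ1 k hk]
              by_cases hx1 : ∃ k, k ≤ n ∧ x1 = f (r - k)
              · obtain ⟨l, hl, rfl⟩ := hx1
                rw [hφ1 l hl]
                have := (hind.adj (by omega) (by omega)).1 hxy.1
                omega
              · have hxP : x1 ∈ P := by
                  have := hxy.2.1
                  simpa using this
                rw [mem_insert, mem_union] at hxP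
                rcases hxP with h | h | h
                · exfalso
                  have := hmid (r - k) (by omega) (h ▸ hxy.1)
                  omega
                · rw [mem_comp] at h
                  have hxQ : x1 ∉ Q := reach_not_mem h hs
                  have hk0 : k = 0 := by
                    by_contra hk0
                    exact hQmem (r - k) (by omega) x1 hxQ (Or.inl hxy.1.symm)
                  subst hk0
                  omega
                · rw [mem_image] at h
                  obtain ⟨l, hl, rfl⟩ := h
                  rw [mem_range] at hl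
                  exact absurd ⟨l, by omega, rfl⟩ hx1
            · rw [hφ0 y1 hy1]
              omega
          have h1 := walk_lip φ hlip p
          have h2 : φ v = 0 := by
            apply hφ0
            rintro ⟨k, _, hk⟩
            exact hvne (r - k) (by omega) hk
          rw [hφ1 n le_rfl, h2, hp, ← hTdist] at h1
          omega
        have hTn : IP G T n := hTind.mono (by omega)
        have hfar : ∀ i', 1 ≤ i' → i' ≤ n → ∀ k, k + n + 2 ≤ r →
            ¬ G.Adj (T i') (f k) ∧ T i' ≠ f k := by
          intro i' h1 h2 k hk
          have hTi := hTP i' (by omega)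
          rw [mem_insert, mem_union] at hTi
          rcases hTi with h | h | h
          · exfalso
            rw [← hT0] at h
            have := hTn.inj h2 (by omega) h
            omega
          · rw [mem_comp] at h
            have hxQ : T i' ∉ Q := reach_not_mem h hs
            have := hQmem k (by omega) _ hxQ
            push Not at this
            exact ⟨fun h' => this.1 h'.symm, this.2.symm⟩
          · rw [mem_image] at h
            obtain ⟨l, hl, hl'⟩ := h
            rw [mem_range] at hl
            rw [← hl']
            have := hind k (r - l) (by omega) (by omega)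
            refine ⟨fun h' => ?_, this.2.symm⟩
            have h3 := this.1.1 h'.symm
            omega
        refine tripod (T := T) (n := n) (by rw [hT0]; exact hpass) hTn ?_ ?_ hns
        · intro i' h1 h2 k hk
          exact hfar i' h1 h2 _ (by omega)
        · intro i' h1 h2 k hk
          exact hfar i' h1 h2 _ (by omega)
      -- now continue with the full closed neighbourhood
      set Q' := Z ∪ ((range (r + 1)).image f).biUnion (cnb G) with hQ'
      have hQ'mem : ∀ x, x ∈ Q' → x ∈ Q ∨ x ∈ cnb G (f r) := by
        intro x hx
        rw [hQ', mem_union, mem_biUnion] at hx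
        rcases hx with h | ⟨u, hu, hxu⟩
        · left; rw [hQ]; exact mem_union_left _ h
        · rw [mem_image] at hu
          obtain ⟨i, hi, rfl⟩ := hu
          rw [mem_range] at hi
          rcases Nat.lt_succ_iff_lt_or_eq.1 hi with h | h
          · left
            rw [hQ, mem_union, mem_biUnion]
            exact Or.inr ⟨f i, mem_image.2 ⟨i, mem_range.2 h, rfl⟩, hxu⟩
          · right; subst h; exact hxu
      have hcnbQ' : cnb G (f r) ⊆ Q' := by
        rw [hQ']
        intro x hx
        rw [mem_union, mem_biUnion]
        exact Or.inr ⟨f r, mem_image.2 ⟨r, mem_range.2 (by omega), rfl⟩, hx⟩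
      have hout : ∀ y, (del G QY).Reachable s' y → y ∉ Q' := by
        intro y hy hyQ'
        rcases hQ'mem y hyQ' with h | h
        · exact reach_not_mem (hsub y hy) hs h
        · exact hQYmem r le_rfl (Or.inr (by omega)) y (reach_not_mem hy hs') (mem_cnb.1 h)
      have hs'Q' : s' ∉ Q' := hout s' (SimpleGraph.Reachable.refl _)
      have htrans : ∀ y, (del G QY).Reachable s' y → (del G Q').Reachable s' y := by
        intro y hy
        obtain ⟨w⟩ := hy
        have h1 : (del G (univ \ comp G QY s')).Reachable s' y :=
          reach_in_support w (fun x hx => mem_comp.2 (support_reach w x hx))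
        refine h1.mono (del_mono ?_)
        intro x hx
        rw [mem_sdiff]
        exact ⟨mem_univ _, fun h => hout x (mem_comp.1 h) hx⟩
      have hbigQ' : Big (comp G Q' s') := by
        refine hmono _ _ ?_ hbigs'
        intro x hx
        rw [mem_comp] at hx ⊢
        exact htrans x hx
      have ha2' : (del G Q').Reachable s' a := htrans a ha2
      have hzQ' : z ∉ ((comp G Q' s' : Finset V) : Set V) := by
        intro h
        rw [mem_coe, mem_comp] at h
        exact reach_not_mem h hs'Q' (hcnbQ' hzf)
      have ha' : a ∈ ((comp G Q' s' : Finset V) : Set V) := by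
        rw [mem_coe, mem_comp]; exact ha2'
      obtain ⟨w, y, hwy, hw, hy, hzw⟩ := exists_cross (hz.symm.trans ha1) hzQ' ha'
      rw [mem_coe, mem_comp] at hw hy
      have hsw : (del G Q).Reachable s w := hz.trans hzw
      have hwQ : w ∉ Q := reach_not_mem hsw hs
      have hyQ' : y ∉ Q' := reach_not_mem hy hs'Q'
      have hwQ' : w ∈ Q' := by
        by_contra hcon
        apply hw
        have : (del G Q').Adj y w := ⟨hwy.1.symm, hyQ', hcon⟩
        exact hy.trans this.reachable
      have hwf : w ∈ cnb G (f r) := (hQ'mem w hwQ').resolve_left hwQ
      have hfw : G.Adj (f r) w := by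
        rw [mem_cnb] at hwf
        rcases hwf with h | h
        · exact h
        · exfalso
          apply hyQ'
          apply hcnbQ'
          rw [mem_cnb, h]
          exact Or.inl hwy.1
      have hwi : ∀ i < r, ¬ (G.Adj (f i) w ∨ f i = w) := fun i hi => hQmem i hi w hwQ
      have himg : (range (r + 1)).image (Function.update f (r + 1) w) = (range (r + 1)).image f := by
        apply image_congr
        intro i hi
        rw [coe_range, Set.mem_Iio] at hi
        rw [Function.update_of_ne hi.ne]
      refine ⟨Function.update f (r + 1) w, s', ?_, ?_, ?_, ?_, y, ?_, ?_⟩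
      · intro i hi
        rcases Nat.lt_succ_iff_lt_or_eq.1 (Nat.lt_succ_of_le hi) with h | h
        · rw [Function.update_of_ne h.ne]
          exact hfZ i (by omega)
        · rw [h, Function.update_self]
          intro hwZ
          exact hwQ (by rw [hQ]; exact mem_union_left _ hwZ)
      · intro i j hij hj
        rcases Nat.lt_succ_iff_lt_or_eq.1 (Nat.lt_succ_of_le hj) with h | h
        · rw [Function.update_of_ne h.ne, Function.update_of_ne (by omega)]
          exact hind i j hij (by omega)
        · subst h
          rw [Function.update_self, Function.update_of_ne hij.ne]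
          rcases Nat.lt_succ_iff_lt_or_eq.1 hij with h | h
          · have := hwi i h
            push Not at this
            refine ⟨⟨fun h' => absurd h' this.1, fun h' => by omega⟩, this.2⟩
          · subst h
            exact ⟨⟨fun _ => rfl, fun _ => hfw⟩, hfw.ne⟩
      · rw [himg]; exact hs'Q'
      · rw [himg]; exact hbigQ'
      · rw [himg]; exact hy
      · rw [Function.update_self, mem_cnb]
        exact Or.inl hwy.1
  -- the path is too long
  obtain ⟨f, _, _, hf, _⟩ := key (Fintype.card V)
  have hinj : Set.InjOn f (range (Fintype.card V + 1)) := by
    intro i hi j hj hij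
    rw [coe_range, Set.mem_Iio] at hi hj
    exact hf.inj (by omega) (by omega) hij
  have := card_image_of_injOn hinj
  rw [card_range] at this
  have h2 := card_le_univ ((range (Fintype.card V + 1)).image f)
  omega

end Pool.Agent.H20
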