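import Pool.Agent.H20.TD
import Pool.Graph.R_seed8.H279R3.TreeHelly

/-! Sparse graphs of large treewidth which locally look like spiders. -/

set_option autoImplicit false
set_option linter.unusedSectionVars false

namespace Pool.Agent.H20

open Finset Pool.Agent.H112R3.TA

/-- paths with `K` vertices joining ports of junctions; each junction is a complete graph on `γ` -/
def Host {J E γ : Type} (q : Fin 3 → γ) (src tgt : E → J × Fin 3) (K : ℕ) :
    SimpleGraph ((J × γ) ⊕ (E × Fin K)) where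
  Adj s t := match s, t with
    | .inl x, .inl y => x.1 = y.1 ∧ x.2 ≠ y.2
    | .inl x, .inr y => (y.2.val = 0 ∧ (src y.1).1 = x.1 ∧ q (src y.1).2 = x.2) ∨
        (y.2.val + 1 = K ∧ (tgt y.1).1 = x.1 ∧ q (tgt y.1).2 = x.2)
    | .inr y, .inl x => (y.2.val = 0 ∧ (src y.1).1 = x.1 ∧ q (src y.1).2 = x.2) ∨
        (y.2.val + 1 = K ∧ (tgt y.1).1 = x.1 ∧ q (tgt y.1).2 = x.2)
    | .inr x, .inr y => x.1 = y.1 ∧ (x.2.val + 1 = y.2.val ∨ y.2.val + 1 = x.2.val)
  symm := ⟨by
    rintro (x | x) (y | y) h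
    · exact ⟨h.1.symm, h.2.symm⟩
    · exact h
    · exact h
    · exact ⟨h.1.symm, h.2.symm⟩⟩
  loopless := ⟨by
    rintro (x | x) h
    · exact h.2 rfl
    · rcases h.2 with h | h <;> omega⟩

theorem Host_cliqueFree {J E γ : Type} [Fintype γ] (q : Fin 3 → γ) (src tgt : E → J × Fin 3)
    (K : ℕ) : (Host q src tgt K).CliqueFree (Fintype.card γ + 2 + 1) := by
  classical
  let C : (Host q src tgt K).Coloring (γ ⊕ Bool) := SimpleGraph.Coloring.mk
    (fun s => match s with
      | .inl x => .inl x.2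
      | .inr x => .inr (decide (x.2.val % 2 = 0))) (by
      rintro (x | x) (y | y) h heq
      · simp only [Sum.inl.injEq] at heq
        exact h.2 heq
      · simp at heq
      · simp at heq
      · simp only [Sum.inr.injEq, decide_eq_decide] at heq
        rcases h.2 with h | h <;> omega)
  have h1 : (Host q src tgt K).Colorable (Fintype.card γ + 2) := by
    have := C.colorable
    rwa [Fintype.card_sum, Fintype.card_bool] at this
  exact h1.cliqueFree (Nat.lt_succ_self _)

theorem host_emb {J E γ α : Type} [Fintype α] {q : Fin 3 → γ} {src tgt : E → J × Fin 3} {K : ℕ}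
    (hs : Function.Injective src) (ht : Function.Injective tgt) (hst : ∀ e e', src e ≠ tgt e')
    {P : SimpleGraph α} (hα : Fintype.card α < K) (φ : P ↪g Host q src tgt K) :
    Nonempty (P ↪g Cop J (Spi γ q K)) := by
  classical
  have hcut : ∀ e : E, ∃ ρ : Fin K, ∀ a, φ a ≠ .inr (e, ρ) := by
    intro e
    by_contra hcon
    push Not at hcon
    choose g hg using hcon
    have hinj : Function.Injective g := by
      intro x y hxy
      have h1 := hg x
      rw [hxy, hg y] at h1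
      simp only [Sum.inr.injEq, Prod.mk.injEq, true_and] at h1
      exact h1.symm
    have := Fintype.card_le_of_injective g hinj
    rw [Fintype.card_fin] at this
    omega
  choose ρ hρ using hcut
  let ψ : (J × γ) ⊕ (E × Fin K) → J × (γ ⊕ (Fin 3 × Fin K)) := fun s => match s with
    | .inl x => (x.1, .inl x.2)
    | .inr x => if x.2 < ρ x.1 then ((src x.1).1, .inr ((src x.1).2, x.2)) else
        ((tgt x.1).1, .inr ((tgt x.1).2, x.2.rev))
  have hlow : ∀ e x, x < ρ e → ψ (.inr (e, x)) = ((src e).1, .inr ((src e).2, x)) := by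
    intro e x hx
    simp only [ψ]
    rw [if_pos hx]
  have hhigh : ∀ e x, ρ e < x → ψ (.inr (e, x)) = ((tgt e).1, .inr ((tgt e).2, x.rev)) := by
    intro e x hx
    simp only [ψ]
    rw [if_neg (not_lt.2 hx.le)]
  have hcore : ∀ j u, ψ (.inl (j, u)) = (j, .inl u) := fun j u => rfl
  -- good vertices
  let good : (J × γ) ⊕ (E × Fin K) → Prop := fun s => ∀ e, s ≠ .inr (e, ρ e)
  have hgood : ∀ e x, good (.inr (e, x)) → x < ρ e ∨ ρ e < x := by
    intro e x h
    rcases lt_trichotomy x (ρ e) with h1 | h1 | h1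
    · exact Or.inl h1
    · exact absurd (by rw [h1]) (h e)
    · exact Or.inr h1
  have hrev : ∀ x : Fin K, (x.rev).val + x.val + 1 = K := by
    intro x
    rw [Fin.val_rev]
    have := x.isLt
    omega
  -- a core vertex and a path vertex
  have hcp : ∀ j u e x, good (.inr (e, x)) →
      ((Host q src tgt K).Adj (.inl (j, u)) (.inr (e, x)) ↔
        (Cop J (Spi γ q K)).Adj (ψ (.inl (j, u))) (ψ (.inr (e, x)))) ∧
      ψ (.inl (j, u)) ≠ ψ (.inr (e, x)) := by
    intro j u e x hg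
    have hx := x.isLt
    rcases hgood e x hg with h | h
    · rw [hlow e x h, hcore]
      have hx' := (ρ e).isLt
      rw [Fin.lt_def] at h
      refine ⟨?_, by simp⟩
      change ((x.val = 0 ∧ (src e).1 = j ∧ q (src e).2 = u) ∨
        (x.val + 1 = K ∧ (tgt e).1 = j ∧ q (tgt e).2 = u)) ↔
        (j = (src e).1 ∧ (q (src e).2 = u ∧ x.val = 0))
      constructor
      · rintro (⟨h1, h2, h3⟩ | ⟨h1, _, _⟩)
        · exact ⟨h2.symm, h3, h1⟩
        · omega
      · rintro ⟨h1, h2, h3⟩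
        exact Or.inl ⟨h3, h1.symm, h2⟩
    · rw [hhigh e x h, hcore]
      rw [Fin.lt_def] at h
      have hr := hrev x
      refine ⟨?_, by simp⟩
      change ((x.val = 0 ∧ (src e).1 = j ∧ q (src e).2 = u) ∨
        (x.val + 1 = K ∧ (tgt e).1 = j ∧ q (tgt e).2 = u)) ↔
        (j = (tgt e).1 ∧ (q (tgt e).2 = u ∧ (x.rev).val = 0))
      constructor
      · rintro (⟨h1, _, _⟩ | ⟨h1, h2, h3⟩)
        · omega
        · exact ⟨h2.symm, h3, by omega⟩
      · rintro ⟨h1, h2, h3⟩
        exact Or.inr ⟨by omega, h1.symm, h2⟩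
  -- two path vertices
  have hpp : ∀ e x e' x', good (.inr (e, x)) → good (.inr (e', x')) →
      ((Host q src tgt K).Adj (.inr (e, x)) (.inr (e', x')) ↔
        (Cop J (Spi γ q K)).Adj (ψ (.inr (e, x))) (ψ (.inr (e', x')))) ∧
      (ψ (.inr (e, x)) = ψ (.inr (e', x')) → e = e' ∧ x = x') := by
    intro e x e' x' hg hg'
    have hr := hrev x
    have hr' := hrev x'
    rcases hgood e x hg with h | h <;> rcases hgood e' x' hg' with h' | h'
    · rw [hlow e x h, hlow e' x' h']
      constructor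
      · change (e = e' ∧ (x.val + 1 = x'.val ∨ x'.val + 1 = x.val)) ↔
          ((src e).1 = (src e').1 ∧ ((src e).2 = (src e').2 ∧
            (x.val + 1 = x'.val ∨ x'.val + 1 = x.val)))
        constructor
        · rintro ⟨rfl, h1⟩
          exact ⟨rfl, rfl, h1⟩
        · rintro ⟨h1, h2, h3⟩
          exact ⟨hs (Prod.ext h1 h2), h3⟩
      · intro heq
        simp only [Prod.mk.injEq, Sum.inr.injEq] at heq
        exact ⟨hs (Prod.ext heq.1 heq.2.1), heq.2.2⟩
    · rw [hlow e x h, hhigh e' x' h']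
      constructor
      · change (e = e' ∧ (x.val + 1 = x'.val ∨ x'.val + 1 = x.val)) ↔
          ((src e).1 = (tgt e').1 ∧ ((src e).2 = (tgt e').2 ∧
            (x.val + 1 = (x'.rev).val ∨ (x'.rev).val + 1 = x.val)))
        constructor
        · rintro ⟨rfl, h1⟩
          rw [Fin.lt_def] at h h'
          omega
        · rintro ⟨h1, h2, h3⟩
          exact absurd (Prod.ext h1 h2) (hst e e')
      · intro heq
        simp only [Prod.mk.injEq, Sum.inr.injEq] at heq
        exact absurd (Prod.ext heq.1 heq.2.1) (hst e e')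
    · rw [hhigh e x h, hlow e' x' h']
      constructor
      · change (e = e' ∧ (x.val + 1 = x'.val ∨ x'.val + 1 = x.val)) ↔
          ((tgt e).1 = (src e').1 ∧ ((tgt e).2 = (src e').2 ∧
            ((x.rev).val + 1 = x'.val ∨ x'.val + 1 = (x.rev).val)))
        constructor
        · rintro ⟨rfl, h1⟩
          rw [Fin.lt_def] at h h'
          omega
        · rintro ⟨h1, h2, h3⟩
          exact absurd (Prod.ext h1.symm h2.symm) (hst e' e)
      · intro heq
        simp only [Prod.mk.injEq, Sum.inr.injEq] at heq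
        exact absurd (Prod.ext heq.1.symm heq.2.1.symm) (hst e' e)
    · rw [hhigh e x h, hhigh e' x' h']
      constructor
      · change (e = e' ∧ (x.val + 1 = x'.val ∨ x'.val + 1 = x.val)) ↔
          ((tgt e).1 = (tgt e').1 ∧ ((tgt e).2 = (tgt e').2 ∧
            ((x.rev).val + 1 = (x'.rev).val ∨ (x'.rev).val + 1 = (x.rev).val)))
        constructor
        · rintro ⟨rfl, h1⟩
          exact ⟨rfl, rfl, by omega⟩
        · rintro ⟨h1, h2, h3⟩
          exact ⟨ht (Prod.ext h1 h2), by omega⟩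
      · intro heq
        simp only [Prod.mk.injEq, Sum.inr.injEq] at heq
        exact ⟨ht (Prod.ext heq.1 heq.2.1), Fin.rev_injective heq.2.2⟩
  have hφg : ∀ a, good (φ a) := fun a e => hρ e a
  have hall : ∀ s t, good s → good t →
      ((Host q src tgt K).Adj s t ↔ (Cop J (Spi γ q K)).Adj (ψ s) (ψ t)) ∧
      (ψ s = ψ t → s = t) := by
    rintro (⟨j, u⟩ | ⟨e, x⟩) (⟨j', u'⟩ | ⟨e', x'⟩) hg hg'
    · rw [hcore, hcore]
      refine ⟨Iff.rfl, ?_⟩
      intro h
      simp only [Prod.mk.injEq, Sum.inl.injEq] at h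
      rw [h.1, h.2]
    · have := hcp j u e' x' hg'
      exact ⟨this.1, fun h => absurd h this.2⟩
    · have := hcp j' u' e x hg
      refine ⟨?_, fun h => absurd h.symm this.2⟩
      rw [SimpleGraph.adj_comm, this.1, SimpleGraph.adj_comm]
    · have := hpp e x e' x' hg hg'
      refine ⟨this.1, fun h => ?_⟩
      rw [(this.2 h).1, (this.2 h).2]
  exact ⟨⟨⟨fun a => ψ (φ a), fun a b hab => φ.injective ((hall _ _ (hφg a) (hφg b)).2 hab)⟩, by
    intro a b
    change (Cop J (Spi γ q K)).Adj (ψ (φ a)) (ψ (φ b)) ↔ P.Adj a b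
    rw [← (hall _ _ (hφg a) (hφg b)).1, φ.map_adj_iff]⟩⟩

/-- disjoint unions with more copies -/
lemma Cop_emb {ι κ α : Type} (P : SimpleGraph α) (g : ι ↪ κ) : Nonempty (Cop ι P ↪g Cop κ P) :=
  ⟨⟨⟨fun s => (g s.1, s.2), by
    rintro ⟨i, x⟩ ⟨j, y⟩ h
    simp only [Prod.mk.injEq] at h
    rw [g.injective h.1, h.2]⟩, by
    rintro ⟨i, x⟩ ⟨j, y⟩
    change (g i = g j ∧ P.Adj x y) ↔ (i = j ∧ P.Adj x y)
    rw [g.injective.eq_iff]⟩⟩

lemma walk_in_aux {V : Type} {T : SimpleGraph V} (A : Set V) {x y : A}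
    (w : (T.induce A).Walk x y) : ∃ w' : T.Walk x.1 y.1, ∀ z ∈ w'.support, z ∈ A := by
  induction w with
  | @nil u =>
    refine ⟨SimpleGraph.Walk.nil, ?_⟩
    intro z hz
    rw [SimpleGraph.Walk.support_nil, List.mem_singleton] at hz
    rw [hz]
    exact u.2
  | @cons u v w h p ih =>
    obtain ⟨w', hw'⟩ := ih
    have h' : T.Adj u.1 v.1 := h
    refine ⟨SimpleGraph.Walk.cons h' w', ?_⟩
    intro z hz
    rw [SimpleGraph.Walk.support_cons, List.mem_cons] at hz
    rcases hz with hz | hz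
    · rw [hz]; exact u.2
    · exact hw' z hz

/-- pairwise touching connected classes force a large bag -/
theorem bag_large {V : Type} [Fintype V] {G : SimpleGraph V} {m r K : ℕ} {T : SimpleGraph (Fin m)}
    {B : Fin m → Finset V} (hT : T.IsTree) (hcov : ∀ v : V, ∃ t, v ∈ B t)
    (hedge : ∀ u v : V, G.Adj u v → ∃ t, u ∈ B t ∧ v ∈ B t)
    (hconn : ∀ v : V, (T.induce {t : Fin m | v ∈ B t}).Connected)
    (hK : ∀ t, (B t).card ≤ K) (c : V → Fin r)
    (hc : ∀ i, H279R3.WConn G {v | c v = i}) (hsurj : ∀ i, ∃ v, c v = i)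
    (htouch : ∀ i j, i < j → ∃ u v, c u = i ∧ c v = j ∧ G.Adj u v) : r ≤ K := by
  classical
  rcases Nat.eq_zero_or_pos r with hr | hr
  · omega
  have hne : Nonempty (Fin r) := ⟨⟨0, hr⟩⟩
  have hv : ∀ v i j, v ∈ B i → v ∈ B j → ∃ q : T.Walk i j, ∀ x ∈ q.support, v ∈ B x := by
    intro v i j hi hj
    obtain ⟨w⟩ := (hconn v).preconnected ⟨i, hi⟩ ⟨j, hj⟩
    exact walk_in_aux _ w
  have hm : ∀ a b : Fin r, ({t | ∃ v ∈ {v | c v = a}, v ∈ B t} ∩
      {t | ∃ v ∈ {v | c v = b}, v ∈ B t}).Nonempty := by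
    have h1 : ∀ a b : Fin r, a < b → ({t | ∃ v ∈ {v | c v = a}, v ∈ B t} ∩
      {t | ∃ v ∈ {v | c v = b}, v ∈ B t}).Nonempty := by
      intro a b hab
      obtain ⟨u, v, hu, hv, huv⟩ := htouch a b hab
      obtain ⟨t, ht1, ht2⟩ := hedge u v huv
      exact ⟨t, ⟨u, hu, ht1⟩, ⟨v, hv, ht2⟩⟩
    intro a b
    rcases lt_trichotomy a b with h | h | h
    · exact h1 a b h
    · subst h
      obtain ⟨v, hv⟩ := hsurj a
      obtain ⟨t, ht⟩ := hcov v
      exact ⟨t, ⟨v, hv, ht⟩, ⟨v, hv, ht⟩⟩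
    · rw [Set.inter_comm]
      exact h1 b a h
  obtain ⟨t, ht⟩ := H279R3.helly hT (fun a : Fin r => {t | ∃ v ∈ {v | c v = a}, v ∈ B t})
    (fun a => H279R3.trace_conn hedge hv (hc a)) hm
  calc r = (univ : Finset (Fin r)).card := by simp
    _ ≤ ((B t).image c).card := by
        apply card_le_card
        intro a _
        obtain ⟨v, hv, hvt⟩ := ht a
        rw [mem_image]
        exact ⟨v, hvt, hv⟩
    _ ≤ (B t).card := card_image_le
    _ ≤ K := hK t

/-- classes in which every vertex reaches a base point -/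
lemma WConn_of_base {V : Type} {G : SimpleGraph V} {S : Set V} (b : V)
    (h : ∀ v ∈ S, ∃ p : G.Walk v b, ∀ x ∈ p.support, x ∈ S) : H279R3.WConn G S := by
  intro u hu v hv
  obtain ⟨p, hp⟩ := h u hu
  obtain ⟨p', hp'⟩ := h v hv
  refine ⟨p.append p'.reverse, ?_⟩
  intro x hx
  rw [SimpleGraph.Walk.mem_support_append_iff] at hx
  rcases hx with hx | hx
  · exact hp x hx
  · rw [SimpleGraph.Walk.support_reverse, List.mem_reverse] at hx
    exact hp' x hx

/-- the paths of the host -/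
abbrev HE (m : ℕ) := (Fin (m + 1) × Fin (m + 1)) ⊕ {p : Fin (m + 1) × Fin (m + 1) // p.1 < p.2}

/-- starting ports -/
def hsrc (m : ℕ) : HE m → (Fin (m + 1) × Fin (m + 1)) × Fin 3
  | .inl p => (p, 0)
  | .inr p => (p.1, 2)

/-- final ports -/
def htgt (m : ℕ) : HE m → (Fin (m + 1) × Fin (m + 1)) × Fin 3
  | .inl p => ((p.1, p.2 + 1), 1)
  | .inr p => ((p.1.2, p.1.1), 2)

lemma hsrc_inj (m : ℕ) : Function.Injective (hsrc m) := by
  rintro (p | p) (p' | p') h
  · simp only [hsrc, Prod.mk.injEq, and_true] at h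
    rw [h]
  · simp [hsrc] at h
  · simp [hsrc] at h
  · simp only [hsrc, Prod.mk.injEq, and_true] at h
    rw [Subtype.ext h]

lemma htgt_inj (m : ℕ) : Function.Injective (htgt m) := by
  rintro (p | p) (p' | p') h
  · simp only [htgt, Prod.mk.injEq, and_true, add_left_inj] at h
    rw [Prod.ext h.1 h.2]
  · simp [htgt] at h
  · simp [htgt] at h
  · simp only [htgt, Prod.mk.injEq, and_true] at h
    rw [Subtype.ext (Prod.ext h.2 h.1)]

lemma hsrc_ne_htgt (m : ℕ) (e e' : HE m) : hsrc m e ≠ htgt m e' := by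
  rcases e with p | p <;> rcases e' with p' | p' <;> intro h
  · simp [hsrc, htgt] at h
  · simp [hsrc, htgt] at h
  · simp [hsrc, htgt] at h
  · simp only [hsrc, htgt, Prod.mk.injEq, and_true] at h
    have h1 := p.2
    have h2 := p'.2
    rw [h] at h1
    exact absurd h1 (not_lt.2 h2.le)

/-- the class of a vertex -/
def hcl (m : ℕ) {γ : Type} {K : ℕ} :
    ((Fin (m + 1) × Fin (m + 1)) × γ) ⊕ (HE m × Fin K) → Fin (m + 1)
  | .inl x => x.1.1
  | .inr (.inl p, _) => p.1
  | .inr (.inr p, _) => p.1.1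

theorem host_conn (m : ℕ) {γ : Type} (q : Fin 3 → γ) {K : ℕ} (hK : 1 ≤ K) (i : Fin (m + 1)) :
    H279R3.WConn (Host q (hsrc m) (htgt m) K) {v | hcl m v = i} := by
  set G := Host q (hsrc m) (htgt m) K with hG
  let b : ((Fin (m + 1) × Fin (m + 1)) × γ) ⊕ (HE m × Fin K) := .inl ((i, 0), q 0)
  let R : ((Fin (m + 1) × Fin (m + 1)) × γ) ⊕ (HE m × Fin K) → Prop := fun v =>
    ∃ p : G.Walk v b, ∀ x ∈ p.support, x ∈ {v | hcl m v = i}
  have hstep : ∀ v w, G.Adj v w → hcl m v = i → R w → R v := by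
    rintro v w hvw hv ⟨p, hp⟩
    refine ⟨SimpleGraph.Walk.cons hvw p, ?_⟩
    intro x hx
    rw [SimpleGraph.Walk.support_cons, List.mem_cons] at hx
    rcases hx with rfl | hx
    · exact hv
    · exact hp x hx
  have hb : R b := ⟨SimpleGraph.Walk.nil, by
    intro x hx
    simp only [SimpleGraph.Walk.support_nil, List.mem_singleton] at hx
    subst hx
    rfl⟩
  have hcore : ∀ (j : Fin (m + 1)) (u u' : γ), R (.inl ((i, j), u)) → R (.inl ((i, j), u')) := by
    intro j u u' h
    by_cases huu : u' = u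
    · rw [huu]; exact h
    · exact hstep _ _ (show G.Adj (.inl ((i, j), u')) (.inl ((i, j), u)) from ⟨rfl, huu⟩) rfl h
  have hedge : ∀ (j : Fin (m + 1)), R (.inl ((i, j), q 0)) → ∀ (x : ℕ) (hx : x < K),
      R (.inr (.inl (i, j), ⟨x, hx⟩)) := by
    intro j h x
    induction x with
    | zero =>
      intro hx
      exact hstep _ _ (show G.Adj (.inr (.inl (i, j), ⟨0, hx⟩)) (.inl ((i, j), q 0)) from
        Or.inl ⟨rfl, rfl, rfl⟩) rfl h
    | succ x ih =>
      intro hx
      exact hstep _ _ (show G.Adj (.inr (.inl (i, j), ⟨x + 1, hx⟩))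
        (.inr (.inl (i, j), ⟨x, by omega⟩)) from ⟨rfl, Or.inr rfl⟩) rfl (ih (by omega))
  have hnext : ∀ (j : Fin (m + 1)), R (.inl ((i, j), q 0)) → R (.inl ((i, j + 1), q 0)) := by
    intro j h
    refine hcore (j + 1) (q 1) (q 0) ?_
    refine hstep _ _ (show G.Adj (.inl ((i, j + 1), q 1))
      (.inr (.inl (i, j), ⟨K - 1, by omega⟩)) from ?_) rfl (hedge j h (K - 1) (by omega))
    exact Or.inr ⟨by simp only; omega, rfl, rfl⟩
  have hq0 : ∀ j : Fin (m + 1), R (.inl ((i, j), q 0)) := by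
    intro j
    induction j using Fin.induction with
    | zero => exact hb
    | succ j ih =>
      have := hnext _ ih
      rwa [Fin.coeSucc_eq_succ] at this
  have hcross : ∀ (p : {p : Fin (m + 1) × Fin (m + 1) // p.1 < p.2}), p.1.1 = i →
      ∀ (x : ℕ) (hx : x < K), R (.inr (.inr p, ⟨x, hx⟩)) := by
    intro p hp x
    induction x with
    | zero =>
      intro hx
      refine hstep _ _ (show G.Adj (.inr (.inr p, ⟨0, hx⟩)) (.inl ((i, p.1.2), q 2)) from
        Or.inl ⟨rfl, ?_, rfl⟩) hp (hcore _ _ _ (hq0 _))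
      change p.1 = (i, p.1.2)
      rw [← hp]
    | succ x ih =>
      intro hx
      exact hstep _ _ (show G.Adj (.inr (.inr p, ⟨x + 1, hx⟩))
        (.inr (.inr p, ⟨x, by omega⟩)) from ⟨rfl, Or.inr rfl⟩) hp (ih (by omega))
  refine WConn_of_base b ?_
  rintro (⟨⟨i', j⟩, u⟩ | ⟨⟨i', j⟩ | p, x⟩) hv
  · have : i' = i := hv
    subst this
    exact hcore j (q 0) u (hq0 j)
  · have : i' = i := hv
    subst this
    exact hedge j (hq0 j) x.val x.isLt
  · exact hcross p hv x.val x.isLt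

theorem host_touch (m : ℕ) {γ : Type} (q : Fin 3 → γ) {K : ℕ} (hK : 1 ≤ K) (i j : Fin (m + 1))
    (hij : i < j) : ∃ u v, hcl m u = i ∧ hcl m v = j ∧
      (Host q (hsrc m) (htgt m) K).Adj u v := by
  refine ⟨.inr (.inr ⟨(i, j), hij⟩, ⟨K - 1, by omega⟩), .inl ((j, i), q 2), rfl, rfl, ?_⟩
  exact Or.inr ⟨by simp only; omega, rfl, rfl⟩

end Pool.Agent.H20
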