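import Pool.Agent.H20.ThmB

/-! Balanced separators of small independence number in graphs without spiders. -/

set_option autoImplicit false
set_option linter.unusedSectionVars false

namespace Pool.Agent.H20

open Finset Pool.Agent.H112R3.TA

variable {V : Type} [Fintype V] [DecidableEq V] {G : SimpleGraph V}

lemma al_biUnion_le {Y : Finset V} {S : V → Finset V} {C : ℕ} (h : ∀ y ∈ Y, al G (S y) ≤ C) :
    al G (Y.biUnion S) ≤ Y.card * C := by
  classical
  induction Y using Finset.induction_on with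
  | empty => simp [al_empty]
  | @insert a s ha ih =>
    rw [biUnion_insert, card_insert_of_notMem ha, add_mul, one_mul, add_comm]
    refine (al_union_le _ _).trans ?_
    exact Nat.add_le_add (h a (mem_insert_self _ _))
      (ih (fun y hy => h y (mem_insert_of_mem hy)))

/-- a shortest path in `G - Q` -/
lemma exists_geod' {Q : Finset V} {x y : V} (hx : x ∉ Q) (h : (del G Q).Reachable x y) :
    ∃ (T : ℕ → V) (m : ℕ), T 0 = x ∧ T m = y ∧ IP G T m ∧ (∀ i ≤ m, T i ∉ Q) ∧
      (∀ i j, i ≤ j → j ≤ m →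
        (del G (univ \ (Icc i j).image T)).Reachable (T i) (T j)) := by
  classical
  have hQ : univ \ (univ \ Q) = Q := by simp
  obtain ⟨T, m, h0, hm, hT, hTP, _, _, hw⟩ := exists_geod (G := G) (P := univ \ Q) (x := x)
    (y := y) (by simp [hx]) (by rw [hQ]; exact h)
  refine ⟨T, m, h0, hm, hT, fun i hi => by simpa using hTP i hi, ?_⟩
  intro i j hij hj
  obtain ⟨w, _, hw'⟩ := hw i j hij hj
  refine reach_in_support w ?_
  intro z hz
  obtain ⟨k, h1, h2, h3⟩ := hw' z hz
  rw [mem_image]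
  exact ⟨k, mem_Icc.2 ⟨h1, h2⟩, h3.symm⟩

/-- constants -/
def bB (n t : ℕ) : ℕ :=
  (aD (2 * (n + 1) + 1) (3 * n + 3) t * (4 * (3 * n + 3)) ^ 2 + 1) *
    aC (2 * (n + 1) + 1) (3 * n + 3) t

/-- constants -/
def cS (n t : ℕ) : ℕ := bB n t + (3 * n + 3) + (3 * n + 3) * eC (2 * n + 2) 2 t

theorem sepL {n t : ℕ} (ht : 1 ≤ t) (h : KF G t) (hns : NS G n) (I : Finset V) :
    ∃ Q : Finset V, al G Q ≤ cS n t ∧ ∀ s, s ∉ Q → 4 * (I ∩ comp G Q s).card ≤ 3 * I.card := by
  classical
  obtain ⟨SB, hSB, hball⟩ := thmB (ρ := n + 1) (n := n) (q := 4 * (3 * n + 3)) ht h hns I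
  obtain ⟨Y, hYc, hYS, hYbal⟩ : ∃ Y : Finset V, Y.card ≤ 3 * n + 3 ∧ (∀ u ∈ Y, u ∉ SB) ∧
      ∀ s, s ∉ SB ∪ Y.biUnion (cnb G) →
        2 * (I ∩ comp G (SB ∪ Y.biUnion (cnb G)) s).card ≤ I.card := by
    by_contra hcon
    push Not at hcon
    exact gyarfas_tri (n := n) SB I (fun U hU hU' => hcon U hU hU') hns
  choose S hS hS' using fun y : V => hit_pass (G := G) (n := n) ht h hns y
  set Q := SB ∪ Y ∪ Y.biUnion S with hQ
  have hSBQ : SB ⊆ Q := subset_union_left.trans subset_union_left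
  have hYQ : Y ⊆ Q := subset_union_right.trans subset_union_left
  have hSQ : ∀ y ∈ Y, S y ⊆ Q := fun y hy => (subset_biUnion_of_mem S hy).trans subset_union_right
  refine ⟨Q, ?_, ?_⟩
  · refine (al_union_le _ _).trans (Nat.add_le_add ((al_union_le _ _).trans ?_) ?_)
    · exact Nat.add_le_add hSB ((al_le_card _).trans hYc)
    · exact (al_biUnion_le (fun y _ => hS y)).trans (Nat.mul_le_mul_right _ hYc)
  set W : Finset V := univ.filter (fun w => w ∉ Q ∧ ∃ y ∈ Y, G.Adj y w) with hW
  have memW : ∀ w, w ∈ W ↔ (w ∉ Q ∧ ∃ y ∈ Y, G.Adj y w) := by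
    intro w
    rw [hW, mem_filter]
    simp
  -- induced paths avoiding `W` near their ends avoid `W`
  have hpath : ∀ (f : ℕ → V) (m : ℕ), IP G f m → (∀ i ≤ m, f i ∉ Q) →
      (∀ i ≤ m, (i ≤ n ∨ m ≤ i + n) → f i ∉ W) → ∀ i ≤ m, f i ∉ W := by
    intro f m hf hfQ hends k0 hk0 hk0W
    obtain ⟨_, y, hyY, hyk⟩ := (memW _).1 hk0W
    obtain ⟨i, j, hni, hij, hjm, hpass⟩ := exists_pass (n := n) (s := m) hf
      (fun k hk heq => hfQ k hk (heq ▸ hYQ hyY)) hk0 hyk le_rfl (fun k hk hadj => by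
        have hkW : f k ∈ W := (memW _).2 ⟨hfQ k hk, y, hyY, hadj⟩
        have h1 : ¬ (k ≤ n ∨ m ≤ k + n) := fun h => hends k hk h hkW
        omega)
    obtain ⟨z, hz⟩ := hS' y _ _ hpass
    rw [mem_inter] at hz
    have hzQ : z ∈ Q := hSQ y hyY hz.2
    have hz1 := hz.1
    unfold pset at hz1
    rw [mem_union, mem_image, mem_image] at hz1
    rcases hz1 with ⟨k, hk, rfl⟩ | ⟨k, hk, rfl⟩
    · rw [mem_range] at hk
      exact hfQ _ (by omega) hzQ
    · rw [mem_range] at hk
      exact hfQ _ (by omega) hzQ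
  -- near vertices
  let near : V → Prop := fun x => ∃ w ∈ W, Lk G (n + 1) Q x w
  have hnearball : ∀ x, near x → ∃ y ∈ Y, Lk G (n + 1 + 1) SB y x := by
    rintro x ⟨w, hwW, P, hP, hPc, hPQ⟩
    obtain ⟨_, y, hyY, hyw⟩ := (memW _).1 hwW
    refine ⟨y, hyY, insert y P, ⟨mem_insert_self _ _, mem_insert_of_mem hP.1, ?_⟩,
      (card_insert_le _ _).trans (by omega), ?_⟩
    · have h1 : (del G (univ \ insert y P)).Adj y w :=
        ⟨hyw, by simp, by simp [hP.2.1]⟩
      have h2 : (del G (univ \ insert y P)).Reachable x w := hP.2.2.mono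
        (del_mono (sdiff_subset_sdiff Subset.rfl (subset_insert _ _)))
      exact h1.reachable.trans h2.symm
    · rw [eq_empty_iff_forall_notMem]
      intro z hz
      rw [mem_inter, mem_insert] at hz
      rcases hz.1 with h1 | h1
      · exact hYS y hyY (h1 ▸ hz.2)
      · exact notMem_empty z (hPQ ▸ mem_inter.2 ⟨h1, hSBQ hz.2⟩)
  have hnearcount : 4 * (I.filter near).card ≤ I.card := by
    have h1 : I.filter near ⊆ Y.biUnion (fun y => bal G (n + 1 + 1) SB I y) := by
      intro x hx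
      rw [mem_filter] at hx
      obtain ⟨y, hy, hyx⟩ := hnearball x hx.2
      rw [mem_biUnion]
      exact ⟨y, hy, mem_bal.2 ⟨hx.1, hyx⟩⟩
    have h2 : (4 * (3 * n + 3)) * (I.filter near).card ≤ (3 * n + 3) * I.card := by
      calc (4 * (3 * n + 3)) * (I.filter near).card
          ≤ (4 * (3 * n + 3)) * ∑ y ∈ Y, (bal G (n + 1 + 1) SB I y).card :=
            Nat.mul_le_mul_left _ ((card_le_card h1).trans card_biUnion_le)
        _ = ∑ y ∈ Y, (4 * (3 * n + 3)) * (bal G (n + 1 + 1) SB I y).card := by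
            rw [Finset.mul_sum]
        _ ≤ ∑ y ∈ Y, I.card := Finset.sum_le_sum (fun y _ => hball y)
        _ = Y.card * I.card := by rw [Finset.sum_const, smul_eq_mul]
        _ ≤ (3 * n + 3) * I.card := Nat.mul_le_mul_right _ hYc
    have h3 : (3 * n + 3) * (4 * (I.filter near).card) ≤ (3 * n + 3) * I.card := by
      calc (3 * n + 3) * (4 * (I.filter near).card)
          = (4 * (3 * n + 3)) * (I.filter near).card := by ring
        _ ≤ _ := h2
    exact Nat.le_of_mul_le_mul_left h3 (by omega)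
  -- two far vertices
  have hfar : ∀ x x', x ∉ Q → ¬ near x → ¬ near x' → (del G Q).Reachable x x' →
      (del G (SB ∪ Y.biUnion (cnb G))).Reachable x x' := by
    intro x x' hx hnx hnx' hr
    obtain ⟨T, m, hT0, hTm, hT, hTQ, hTr⟩ := exists_geod' hx hr
    have hends : ∀ i ≤ m, (i ≤ n ∨ m ≤ i + n) → T i ∉ W := by
      intro i hi hin hiW
      rcases hin with hin | hin
      · apply hnx
        refine ⟨T i, hiW, (Icc 0 i).image T, ⟨?_, ?_, ?_⟩, ?_, ?_⟩
        · rw [← hT0]
          exact mem_image_of_mem _ (mem_Icc.2 ⟨le_rfl, by omega⟩)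
        · exact mem_image_of_mem _ (mem_Icc.2 ⟨by omega, le_rfl⟩)
        · rw [← hT0]
          exact hTr 0 i (by omega) hi
        · refine card_image_le.trans ?_
          rw [Nat.card_Icc]
          omega
        · rw [eq_empty_iff_forall_notMem]
          intro z hz
          rw [mem_inter, mem_image] at hz
          obtain ⟨⟨k, hk, rfl⟩, hzQ⟩ := hz
          rw [mem_Icc] at hk
          exact hTQ k (by omega) hzQ
      · apply hnx'
        refine ⟨T i, hiW, (Icc i m).image T, ⟨?_, ?_, ?_⟩, ?_, ?_⟩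
        · rw [← hTm]
          exact mem_image_of_mem _ (mem_Icc.2 ⟨hi, le_rfl⟩)
        · exact mem_image_of_mem _ (mem_Icc.2 ⟨le_rfl, hi⟩)
        · rw [← hTm]
          exact (hTr i m hi le_rfl).symm
        · refine card_image_le.trans ?_
          rw [Nat.card_Icc]
          omega
        · rw [eq_empty_iff_forall_notMem]
          intro z hz
          rw [mem_inter, mem_image] at hz
          obtain ⟨⟨k, hk, rfl⟩, hzQ⟩ := hz
          rw [mem_Icc] at hk
          exact hTQ k (by omega) hzQ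
    have hall := hpath T m hT hTQ hends
    have h1 := hTr 0 m (by omega) le_rfl
    rw [hT0, hTm] at h1
    refine h1.mono (del_mono ?_)
    intro z hz
    rw [mem_sdiff]
    refine ⟨mem_univ _, fun hz' => ?_⟩
    rw [mem_image] at hz'
    obtain ⟨k, hk, rfl⟩ := hz'
    rw [mem_Icc] at hk
    rw [mem_union, mem_biUnion] at hz
    rcases hz with hz | ⟨y, hyY, hz⟩
    · exact hTQ k (by omega) (hSBQ hz)
    · rw [mem_cnb] at hz
      rcases hz with hz | hz
      · exact hall k (by omega) ((memW _).2 ⟨hTQ k (by omega), y, hyY, hz⟩)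
      · exact hTQ k (by omega) (hz ▸ hYQ hyY)
  intro s hs
  by_cases hex : ∃ x0, x0 ∈ I ∩ comp G Q s ∧ ¬ near x0
  · obtain ⟨x0, hx0, hx0n⟩ := hex
    rw [mem_inter, mem_comp] at hx0
    have hx0Q : x0 ∉ Q := reach_not_mem hx0.2 hs
    have hx0Y : x0 ∉ SB ∪ Y.biUnion (cnb G) := by
      intro hz
      rw [mem_union, mem_biUnion] at hz
      rcases hz with hz | ⟨y, hyY, hz⟩
      · exact hx0Q (hSBQ hz)
      · rw [mem_cnb] at hz
        rcases hz with hz | hz
        · apply hx0n
          refine ⟨x0, (memW _).2 ⟨hx0Q, y, hyY, hz⟩, {x0}, ⟨mem_singleton_self _,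
            mem_singleton_self _, SimpleGraph.Reachable.refl _⟩, ?_, ?_⟩
          · rw [card_singleton]; omega
          · rw [singleton_inter_of_notMem hx0Q]
        · exact hx0Q (hz ▸ hYQ hyY)
    have h1 := hYbal x0 hx0Y
    have h2 : I ∩ comp G Q s ⊆
        (I.filter near) ∪ (I ∩ comp G (SB ∪ Y.biUnion (cnb G)) x0) := by
      intro x hx
      rw [mem_inter, mem_comp] at hx
      rw [mem_union, mem_filter, mem_inter, mem_comp]
      by_cases hxn : near x
      · exact Or.inl ⟨hx.1, hxn⟩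
      · exact Or.inr ⟨hx.1, hfar x0 x hx0Q hx0n hxn (hx0.2.symm.trans hx.2)⟩
    have h3 := (card_le_card h2).trans (card_union_le _ _)
    omega
  · push Not at hex
    have h2 : I ∩ comp G Q s ⊆ I.filter near := by
      intro x hx
      rw [mem_filter]
      exact ⟨(mem_inter.1 hx).1, hex x hx⟩
    have h3 := card_le_card h2
    omega

end Pool.Agent.H20
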