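import Pool.Graph.R_seed8.H112R3.TA.PnC
import Pool.Agent.H20.Gyar

/-! Deleting a set of small independence number so that a positive fraction of the pairs is not
linked by small sets. -/

set_option autoImplicit false
set_option linter.unusedSectionVars false

namespace Pool.Agent.H20

open Finset Pool.Agent.H112R3.TA

variable {V : Type} [Fintype V] [DecidableEq V] {G : SimpleGraph V}

/-- constants -/
def aN (l L₀ t : ℕ) : ℕ := 8 * L₀ * (l * t + 1)

/-- constants -/
def aC (l L₀ t : ℕ) : ℕ := 32 * l ^ 2 * (aN l L₀ t) ^ 2 * 2 ^ (aN l L₀ t)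

/-- constants -/
def aD (l L₀ t : ℕ) : ℕ := 32 * l * aN l L₀ t * 2 ^ (aN l L₀ t)

theorem caseA' {n L₀ t : ℕ} (hn : 1 ≤ n) (hL₀ : 1 ≤ L₀) (ht : 1 ≤ t) (h : KF G t) (I : Finset V)
    (hI : 0 < I.card)
    (μ : (V × V → Finset V) → ℝ) (hμ : ∀ ψ, 0 ≤ μ ψ) (hμ1 : ∑ ψ, μ ψ = 1)
    (hS : ∀ S : Finset V, al G S ≤ aN n L₀ t →
      ∑ ψ, μ ψ * (miss G n I S ψ / (I.card : ℝ) ^ 2) < 1 / (16 * n * aN n L₀ t * 2 ^ aN n L₀ t)) :
    ∃ Z : Finset V, ∀ U : Finset V, U.card ≤ L₀ → (∀ u ∈ U, u ∉ Z) →
      ∃ s, s ∉ Z ∪ U.biUnion (cnb G) ∧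
        I.card < 2 * (I ∩ comp G (Z ∪ U.biUnion (cnb G)) s).card := by
  classical
  set N := aN n L₀ t with hN
  have hnR : (1 : ℝ) ≤ n := by exact_mod_cast hn
  have hL₀R : (1 : ℝ) ≤ L₀ := by exact_mod_cast hL₀
  have htR : (1 : ℝ) ≤ t := by exact_mod_cast ht
  have hnt : t ≤ n * t := Nat.le_mul_of_pos_left t hn
  have hN1 : 16 ≤ N := by
    rw [hN, aN]
    nlinarith
  have hNR : (N : ℝ) = 8 * L₀ * (n * t + 1) := by rw [hN, aN]; push_cast; ring
  have htN : t ≤ N + 1 := by
    rw [hN, aN]
    nlinarith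
  have hN16 : (16 : ℝ) ≤ N := by exact_mod_cast hN1
  have hpow : (1 : ℝ) ≤ 2 ^ N := one_le_pow₀ (by norm_num)
  set ε : ℝ := 1 / (16 * n * N * 2 ^ N) with hε
  have hεpos : 0 < ε := by rw [hε]; positivity
  have hε16 : ε ≤ 1 / 16 := by
    rw [hε]
    apply one_div_le_one_div_of_le (by norm_num)
    have h1 : (1 : ℝ) ≤ n * N := by nlinarith
    have h2 : (1 : ℝ) ≤ n * N * 2 ^ N := by nlinarith
    linarith
  have hNε : (n : ℝ) * N * 2 ^ N * ε = 1 / 16 := by
    rw [hε]; field_simp
  set L : ℝ := (I.card : ℝ) with hL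
  have hLpos : 0 < L := by rw [hL]; exact_mod_cast hI
  -- the weights
  let w : (V × V → Finset V) × (V × V) → ℝ := fun ω =>
    if ω.2 ∈ I ×ˢ I ∧ Ok G n (ω.1 ω.2) ω.2 then μ ω.1 / L ^ 2 else 0
  let p : (V × V → Finset V) × (V × V) → Finset V := fun ω =>
    if Ok G n (ω.1 ω.2) ω.2 then ω.1 ω.2 else ∅
  have hw : ∀ ω, 0 ≤ w ω := by
    intro ω
    simp only [w]
    split_ifs
    · exact div_nonneg (hμ _) (by positivity)
    · exact le_rfl
  have hp : ∀ ω, (p ω).card ≤ n := by
    intro ω
    simp only [p]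
    split_ifs with h1
    · exact h1.2
    · simp
  have hcardII : ((I ×ˢ I).card : ℝ) = L ^ 2 := by
    rw [card_product, hL]; push_cast; ring
  have hmiss : ∀ S ψ, miss G n I S ψ =
      L ^ 2 - ∑ x ∈ I ×ˢ I, if Ok G n (ψ x) x ∧ ψ x ∩ S = ∅ then (1 : ℝ) else 0 := by
    intro S ψ
    unfold miss
    rw [← hcardII, card_eq_sum_ones]
    push_cast
    rw [← Finset.sum_sub_distrib]
    apply Finset.sum_congr rfl
    intro x _
    split_ifs <;> norm_num
  -- the unhit weight
  have hunhit : ∀ S, ∑ ω ∈ univ.filter (fun ω => p ω ∩ S = ∅), w ω =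
      1 - ∑ ψ, μ ψ * (miss G n I S ψ / L ^ 2) := by
    intro S
    rw [Finset.sum_filter, Fintype.sum_prod_type]
    have h1 : ∀ ψ : V × V → Finset V, (∑ x : V × V, if p (ψ, x) ∩ S = ∅ then w (ψ, x) else 0) =
        μ ψ / L ^ 2 * ∑ x ∈ I ×ˢ I, if Ok G n (ψ x) x ∧ ψ x ∩ S = ∅ then (1 : ℝ) else 0 := by
      intro ψ
      rw [Finset.mul_sum]
      rw [← Finset.sum_filter_add_sum_filter_not univ (fun x => x ∈ I ×ˢ I)]
      have h2 : ∑ x ∈ univ.filter (fun x : V × V => ¬ x ∈ I ×ˢ I),
          (if p (ψ, x) ∩ S = ∅ then w (ψ, x) else 0) = 0 := by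
        apply Finset.sum_eq_zero
        intro x hx
        rw [mem_filter] at hx
        have : w (ψ, x) = 0 := by
          simp only [w]
          rw [if_neg]
          exact fun h => hx.2 h.1
        rw [this]
        simp
      rw [h2, add_zero]
      have h3 : univ.filter (fun x : V × V => x ∈ I ×ˢ I) = I ×ˢ I := by
        ext x; simp
      rw [h3]
      apply Finset.sum_congr rfl
      intro x hx
      by_cases h4 : Ok G n (ψ x) x
      · have h5 : w (ψ, x) = μ ψ / L ^ 2 := by
          simp only [w]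
          rw [if_pos ⟨hx, h4⟩]
        have h6 : p (ψ, x) = ψ x := by
          simp only [p]
          rw [if_pos h4]
        rw [h5, h6]
        by_cases h7 : ψ x ∩ S = ∅
        · rw [if_pos h7, if_pos ⟨h4, h7⟩, mul_one]
        · rw [if_neg h7, if_neg (fun h => h7 h.2), mul_zero]
      · have h5 : w (ψ, x) = 0 := by
          simp only [w]
          rw [if_neg]
          exact fun h => h4 h.2
        simp [h5, h4]
    simp_rw [h1]
    conv_rhs => rw [← hμ1]
    rw [← Finset.sum_sub_distrib]
    apply Finset.sum_congr rfl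
    intro ψ _
    rw [hmiss]
    field_simp
    ring
  have htotal : ∑ ω, w ω ≤ 1 := by
    have h1 : ∑ ω, w ω = ∑ ω ∈ univ.filter (fun ω => p ω ∩ ∅ = ∅), w ω := by
      rw [Finset.filter_true_of_mem]
      intro ω _
      exact inter_empty _
    rw [h1, hunhit]
    have : 0 ≤ ∑ ψ, μ ψ * (miss G n I ∅ ψ / L ^ 2) := by
      apply Finset.sum_nonneg
      intro ψ _
      apply mul_nonneg (hμ _)
      apply div_nonneg _ (by positivity)
      unfold miss
      apply Finset.sum_nonneg
      intro x _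
      split_ifs <;> norm_num
    linarith
  have hhit : ∀ S, hit w p S + ∑ ω ∈ univ.filter (fun ω => p ω ∩ S = ∅), w ω = ∑ ω, w ω := by
    intro S
    rw [hit_eq, Finset.sum_filter, ← Finset.sum_add_distrib]
    apply Finset.sum_congr rfl
    intro ω _
    by_cases h1 : (p ω ∩ S).Nonempty
    · rw [if_pos h1, if_neg (nonempty_iff_ne_empty.1 h1), add_zero]
    · rw [if_neg h1, if_pos (not_nonempty_iff_eq_empty.1 h1), zero_add]
  have hSw : ∀ S : Finset V, al G S ≤ N → hit w p S ≤ ε := by
    intro S hSN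
    have h1 := hhit S
    rw [hunhit] at h1
    have h2 := hS S hSN
    linarith
  have htot : 1 - ε ≤ ∑ ω, w ω := by
    have h1 := hhit ∅
    rw [hunhit] at h1
    have h2 := hS ∅ (by rw [al_empty]; exact Nat.zero_le _)
    have h3 : 0 ≤ hit w p ∅ := Finset.sum_nonneg fun ω _ => hw ω
    linarith
  set η : ℝ := 1 / (8 * L₀) with hη
  have hηpos : 0 < η := by rw [hη]; positivity
  let Z : Finset V := univ.filter (fun u => η ≤ deg G w p u)
  have hZ : al G Z < N := by
    refine al_high_lt (k := N) (ε := ε) (η := η) h ht htN w hw htotal p hp ?_ ?_ Z ?_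
    · intro S hSk
      exact hSw S hSk
    · have h2 : (N : ℝ) * η = n * t + 1 := by
        rw [hNR, hη]; field_simp
      rw [hNε, h2]
      linarith
    · intro u hu
      exact (mem_filter.1 hu).2
  refine ⟨Z, ?_⟩
  intro U hU hUZ
  set Q := Z ∪ U.biUnion (cnb G) with hQ
  have hhitQ : hit w p Q ≤ ε + 1 / 8 := by
    have h1 := hit_union w hw p Z (U.biUnion (cnb G))
    have h2 := hit_biUnion (G := G) w hw p U η (fun u hu => by
      have := hUZ u hu
      simp only [Z, mem_filter, mem_univ, true_and, not_le] at this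
      exact this.le)
    have h3 : (U.card : ℝ) * η ≤ 1 / 8 := by
      have h4 : (U.card : ℝ) ≤ L₀ := by exact_mod_cast hU
      calc (U.card : ℝ) * η ≤ L₀ * η := mul_le_mul_of_nonneg_right h4 hηpos.le
        _ = 1 / 8 := by rw [hη]; field_simp
    have h4 := hSw Z hZ.le
    linarith
  have hun : 3 / 4 ≤ ∑ ω ∈ univ.filter (fun ω => p ω ∩ Q = ∅), w ω := by
    have := hhit Q
    linarith
  by_contra hcon
  push Not at hcon
  -- bound the number of connected pairs
  have hle : ∑ ω ∈ univ.filter (fun ω => p ω ∩ Q = ∅), w ω ≤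
      ∑ x ∈ I ×ˢ I, if x.1 ∉ Q ∧ (del G Q).Reachable x.1 x.2 then 1 / L ^ 2 else 0 := by
    rw [Finset.sum_filter, Fintype.sum_prod_type, Finset.sum_comm]
    have h3 : univ.filter (fun x : V × V => x ∈ I ×ˢ I) = I ×ˢ I := by
      ext x; simp
    rw [← h3, Finset.sum_filter]
    apply Finset.sum_le_sum
    intro x _
    by_cases hxI : x ∈ I ×ˢ I
    · rw [if_pos hxI]
      by_cases hconn : x.1 ∉ Q ∧ (del G Q).Reachable x.1 x.2
      · rw [if_pos hconn]
        calc ∑ ψ : V × V → Finset V, (if p (ψ, x) ∩ Q = ∅ then w (ψ, x) else 0)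
            ≤ ∑ ψ : V × V → Finset V, μ ψ / L ^ 2 := by
              apply Finset.sum_le_sum
              intro ψ _
              have h4 : w (ψ, x) ≤ μ ψ / L ^ 2 := by
                simp only [w]
                split_ifs
                · exact le_rfl
                · exact div_nonneg (hμ _) (by positivity)
              split_ifs
              · exact h4
              · exact div_nonneg (hμ _) (by positivity)
          _ = 1 / L ^ 2 := by rw [← Finset.sum_div, hμ1]
      · rw [if_neg hconn]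
        apply Finset.sum_nonpos
        intro ψ _
        split_ifs with h4
        · have : w (ψ, x) = 0 := by
            simp only [w]
            rw [if_neg]
            rintro ⟨_, hok⟩
            apply hconn
            have h5 : p (ψ, x) = ψ x := by
              simp only [p]
              rw [if_pos hok]
            rw [h5] at h4
            exact hok.1.reach h4
          rw [this]
        · exact le_rfl
    · rw [if_neg hxI]
      apply Finset.sum_nonpos
      intro ψ _
      have : w (ψ, x) = 0 := by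
        simp only [w]
        rw [if_neg]
        exact fun h => hxI h.1
      rw [this]
      simp
  have hle2 : ∑ x ∈ I ×ˢ I, (if x.1 ∉ Q ∧ (del G Q).Reachable x.1 x.2 then 1 / L ^ 2 else 0) ≤
      1 / 2 := by
    rw [Finset.sum_product]
    have h4 : ∀ s ∈ I, (∑ y ∈ I, if s ∉ Q ∧ (del G Q).Reachable s y then 1 / L ^ 2 else 0) ≤
        (L / 2) * (1 / L ^ 2) := by
      intro s _
      by_cases hs : s ∉ Q
      · have h5 := hcon s hs
        have h6 : (∑ y ∈ I, if s ∉ Q ∧ (del G Q).Reachable s y then 1 / L ^ 2 else 0) =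
            ((I ∩ comp G Q s).card : ℝ) * (1 / L ^ 2) := by
          rw [← Finset.sum_filter, Finset.sum_const, nsmul_eq_mul]
          congr 3
          ext y
          simp only [mem_filter, mem_inter, mem_comp]
          tauto
        rw [h6]
        apply mul_le_mul_of_nonneg_right _ (by positivity)
        have h7 : (2 : ℝ) * ((I ∩ comp G Q s).card : ℝ) ≤ L := by
          rw [hL]; exact_mod_cast h5
        linarith
      · have h6 : (∑ y ∈ I, if s ∉ Q ∧ (del G Q).Reachable s y then 1 / L ^ 2 else 0) = 0 := by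
          apply Finset.sum_eq_zero
          intro y _
          rw [if_neg]
          exact fun h => hs h.1
        rw [h6]
        positivity
    calc ∑ s ∈ I, ∑ y ∈ I, (if s ∉ Q ∧ (del G Q).Reachable s y then 1 / L ^ 2 else 0)
        ≤ ∑ s ∈ I, (L / 2) * (1 / L ^ 2) := Finset.sum_le_sum h4
      _ = 1 / 2 := by
          rw [Finset.sum_const, nsmul_eq_mul, ← hL]
          field_simp
  linarith


/-- `a` and `b` are linked by a set with at most `l` vertices avoiding `S` -/
def Lk (G : SimpleGraph V) (l : ℕ) (S : Finset V) (a b : V) : Prop :=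
  ∃ P : Finset V, Links G P a b ∧ P.card ≤ l ∧ P ∩ S = ∅

open Classical in
/-- the linked pairs -/
noncomputable def lp (G : SimpleGraph V) (l : ℕ) (S I : Finset V) : Finset (V × V) :=
  (I ×ˢ I).filter (fun x => Lk G l S x.1 x.2)

lemma real_aux {b L2 ε : ℝ} (hε : 0 < ε) (hε1 : ε ≤ 1) (hL : 0 ≤ L2)
    (hX : ε * L2 ≤ L2 - b * (1 - ε / 2)) : b + (ε / 2) * L2 ≤ L2 := by
  by_contra hcon
  push Not at hcon
  have h1 : (1 - ε / 2) * L2 < b := by linarith
  have h2 : 0 < 1 - ε / 2 := by linarith
  have h3 : (1 - ε / 2) * ((1 - ε / 2) * L2) < (1 - ε / 2) * b := mul_lt_mul_of_pos_left h1 h2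
  have h4 : (1 - ε / 2) * ((1 - ε / 2) * L2) = (1 - ε) * L2 + ε ^ 2 / 4 * L2 := by ring
  have h5 : 0 ≤ ε ^ 2 / 4 * L2 := by positivity
  have h6 : (1 - ε / 2) * b = b * (1 - ε / 2) := mul_comm _ _
  linarith

theorem thmA {l n t : ℕ} (hl : 1 ≤ l) (ht : 1 ≤ t) (h : KF G t) (hns : NS G n) (I : Finset V)
    (hI : 0 < I.card) : ∃ S : Finset V, al G S ≤ aC l (3 * n + 3) t ∧
      aD l (3 * n + 3) t * (lp G l S I).card + I.card ^ 2 ≤ aD l (3 * n + 3) t * I.card ^ 2 := by
  classical
  set N := aN l (3 * n + 3) t with hN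
  have hN1 : 1 ≤ N := by
    rw [hN, aN]
    exact Nat.one_le_iff_ne_zero.2 (by positivity)
  have hNR1 : (1 : ℝ) ≤ N := by exact_mod_cast hN1
  have hlR : (1 : ℝ) ≤ l := by exact_mod_cast hl
  have hpow : (1 : ℝ) ≤ 2 ^ N := one_le_pow₀ (by norm_num)
  set ε : ℝ := 1 / (16 * l * N * 2 ^ N) with hε
  have hεpos : 0 < ε := by rw [hε]; positivity
  have hε1 : ε ≤ 1 := by
    rw [hε]
    apply (div_le_one (by positivity)).2
    have h1 : (1 : ℝ) ≤ l * N := one_le_mul_of_one_le_of_one_le hlR hNR1
    have h2 : (1 : ℝ) ≤ l * N * 2 ^ N := one_le_mul_of_one_le_of_one_le h1 hpow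
    linarith
  set L : ℝ := (I.card : ℝ) with hL
  have hLpos : 0 < L := by rw [hL]; exact_mod_cast hI
  let SS' : Type := {S : Finset V // al G S ≤ N}
  have hSS : Nonempty SS' := ⟨⟨∅, by rw [al_empty]; exact Nat.zero_le _⟩⟩
  rcases minimax (I := SS') (J := V × V → Finset V)
    (fun S ψ => miss G l I S.1 ψ / L ^ 2) ε with ⟨μ, hμ, hμ1, hμS⟩ | ⟨w, hw, hw1, hle⟩
  · exfalso
    obtain ⟨Z, hZ⟩ := caseA' (L₀ := 3 * n + 3) hl (by omega) ht h I hI μ hμ hμ1
      (fun S hS => hμS ⟨S, hS⟩)
    exact gyarfas_tri (n := n) Z I hZ hns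
  · set xv : V → ℝ := fun v => ∑ S ∈ univ.filter (fun S : SS' => v ∈ S.1), w S with hxv
    set S₀ : Finset V := univ.filter (fun v => ε / (2 * l) ≤ xv v) with hS₀
    have hal : al G S₀ ≤ aC l (3 * n + 3) t := by
      have h1 := round_al (G := G) (k := N) w hw hw1 (fun S : SS' => S.1) (fun S => S.2)
        (ε / (2 * l)) S₀ (by
          intro v hv
          exact (mem_filter.1 hv).2)
      have h2 : (al G S₀ : ℝ) ≤ (aC l (3 * n + 3) t : ℕ) := by
        have h3 : (al G S₀ : ℝ) ≤ N / (ε / (2 * l)) := by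
          rw [le_div_iff₀ (by positivity)]
          exact h1
        refine h3.trans (le_of_eq ?_)
        rw [hε, aC, ← hN]
        push_cast
        field_simp
        ring
      exact_mod_cast h2
    refine ⟨S₀, hal, ?_⟩
    -- the path system
    let ψ : V × V → Finset V := fun x =>
      if hx : Lk G l S₀ x.1 x.2 then hx.choose else ∅
    have hψ : ∀ x : V × V, Lk G l S₀ x.1 x.2 → Ok G l (ψ x) x ∧ ψ x ∩ S₀ = ∅ := by
      intro x hx
      have h8 : ψ x = hx.choose := dif_pos hx
      have h9 := hx.choose_spec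
      rw [h8]
      exact ⟨⟨h9.1, h9.2.1⟩, h9.2.2⟩
    have h8 := hle ψ
    have h9 : ∑ S : SS', w S * (miss G l I S.1 ψ / L ^ 2) =
        (∑ x ∈ I ×ˢ I, ∑ S : SS', w S *
          (if Ok G l (ψ x) x ∧ ψ x ∩ S.1 = ∅ then (0 : ℝ) else 1)) / L ^ 2 := by
      rw [Finset.sum_comm, Finset.sum_div]
      apply Finset.sum_congr rfl
      intro S _
      unfold miss
      rw [← mul_div_assoc, Finset.mul_sum]
    rw [h9] at h8
    have h10 : ∀ x ∈ I ×ˢ I, ∑ S : SS', w S *
          (if Ok G l (ψ x) x ∧ ψ x ∩ S.1 = ∅ then (0 : ℝ) else 1) ≤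
        (if Lk G l S₀ x.1 x.2 then ε / 2 else 1) := by
      intro x _
      by_cases hx : Lk G l S₀ x.1 x.2
      · obtain ⟨hok, hdis⟩ := hψ x hx
        rw [if_pos hx]
        have h11 : ∑ S : SS', w S * (if Ok G l (ψ x) x ∧ ψ x ∩ S.1 = ∅ then (0 : ℝ) else 1) ≤
            ∑ S : SS', ∑ v ∈ ψ x, (if v ∈ S.1 then w S else 0) := by
          apply Finset.sum_le_sum
          intro S _
          have h0 := hw S
          split_ifs with h12
          · rw [mul_zero]
            apply Finset.sum_nonneg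
            intro v _
            split_ifs
            · exact h0
            · exact le_rfl
          · have h13 : (ψ x ∩ S.1).Nonempty := by
              rw [nonempty_iff_ne_empty]
              exact fun h => h12 ⟨hok, h⟩
            obtain ⟨v, hv⟩ := h13
            rw [mem_inter] at hv
            have h14 := Finset.single_le_sum (f := fun v => if v ∈ S.1 then w S else 0)
              (fun v _ => by split_ifs <;> [exact h0; exact le_rfl]) hv.1
            simp only [hv.2, if_true] at h14
            rw [mul_one]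
            exact h14
        have h15 : ∑ S : SS', ∑ v ∈ ψ x, (if v ∈ S.1 then w S else 0) = ∑ v ∈ ψ x, xv v := by
          rw [Finset.sum_comm]
          apply Finset.sum_congr rfl
          intro v _
          rw [hxv]
          simp only
          rw [Finset.sum_filter]
        have h16 : ∑ v ∈ ψ x, xv v ≤ l * (ε / (2 * l)) := by
          calc ∑ v ∈ ψ x, xv v ≤ ∑ v ∈ ψ x, ε / (2 * l) := by
                apply Finset.sum_le_sum
                intro v hv
                by_contra hcon2
                push Not at hcon2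
                have : v ∈ S₀ := by
                  rw [hS₀, mem_filter]
                  exact ⟨mem_univ _, hcon2.le⟩
                exact Finset.notMem_empty v (hdis ▸ mem_inter.2 ⟨hv, this⟩)
            _ = (ψ x).card * (ε / (2 * l)) := by rw [Finset.sum_const, nsmul_eq_mul]
            _ ≤ l * (ε / (2 * l)) := by
                apply mul_le_mul_of_nonneg_right _ (by positivity)
                exact_mod_cast hok.2
        have h17 : (l : ℝ) * (ε / (2 * l)) = ε / 2 := by field_simp
        linarith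
      · rw [if_neg hx]
        have h12 : ∑ S : SS', w S * (if Ok G l (ψ x) x ∧ ψ x ∩ S.1 = ∅ then (0 : ℝ) else 1) ≤
            ∑ S : SS', w S := by
          apply Finset.sum_le_sum
          intro S _
          have h0 := hw S
          split_ifs
          · simpa using h0
          · simp
        rw [hw1] at h12
        exact h12
    have hII : ((I ×ˢ I).card : ℝ) = L ^ 2 := by
      rw [card_product, hL]; push_cast; ring
    set b : ℝ := ((lp G l S₀ I).card : ℝ) with hb
    have h11 : ∑ x ∈ I ×ˢ I, (if Lk G l S₀ x.1 x.2 then ε / 2 else 1) =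
        L ^ 2 - b * (1 - ε / 2) := by
      have h12 : ∑ x ∈ I ×ˢ I, (if Lk G l S₀ x.1 x.2 then (1 - ε / 2) else 0) =
          b * (1 - ε / 2) := by
        rw [← Finset.sum_filter, Finset.sum_const, nsmul_eq_mul]
        rfl
      rw [← h12, ← hII, card_eq_sum_ones]
      push_cast
      rw [← Finset.sum_sub_distrib]
      apply Finset.sum_congr rfl
      intro x _
      split_ifs <;> ring
    have h12 := Finset.sum_le_sum h10
    rw [h11] at h12
    rw [le_div_iff₀ (by positivity)] at h8
    have hb0 : 0 ≤ b := by rw [hb]; exact Nat.cast_nonneg _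
    have hbL : b ≤ L ^ 2 := by
      rw [hb, ← hII]
      exact_mod_cast card_filter_le _ _
    -- `b ≤ (1 - ε / 2) L ^ 2`
    have h13 : b + (ε / 2) * L ^ 2 ≤ L ^ 2 :=
      real_aux hεpos hε1 (by positivity) (h8.trans h12)
    have hD : (aD l (3 * n + 3) t : ℝ) * (ε / 2) = 1 := by
      rw [aD, ← hN, hε]
      push_cast
      field_simp
      norm_num
    have hD0 : (0 : ℝ) ≤ aD l (3 * n + 3) t := Nat.cast_nonneg _
    have h14 : (aD l (3 * n + 3) t : ℝ) * b + L ^ 2 ≤ aD l (3 * n + 3) t * L ^ 2 := by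
      have h15 := mul_le_mul_of_nonneg_left h13 hD0
      rw [mul_add, ← mul_assoc, hD, one_mul] at h15
      exact h15
    rw [hb, hL] at h14
    exact_mod_cast h14

end Pool.Agent.H20
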