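import Pool.Agent.H20.ThmA

/-! Deleting a set of small independence number so that all balls of bounded radius are small. -/

set_option autoImplicit false
set_option linter.unusedSectionVars false

namespace Pool.Agent.H20

open Finset Pool.Agent.H112R3.TA

variable {V : Type} [Fintype V] [DecidableEq V] {G : SimpleGraph V}

lemma Lk.comb {ρ : ℕ} {S : Finset V} {y a b : V} (ha : Lk G (ρ + 1) S y a)
    (hb : Lk G (ρ + 1) S y b) : Lk G (2 * ρ + 1) S a b := by
  obtain ⟨P, hP, hPc, hPS⟩ := ha
  obtain ⟨P', hP', hPc', hPS'⟩ := hb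
  refine ⟨P ∪ P', ⟨mem_union_left _ hP.2.1, mem_union_right _ hP'.2.1, ?_⟩, ?_, ?_⟩
  · have h1 : (del G (univ \ (P ∪ P'))).Reachable y a := hP.2.2.mono
      (del_mono (sdiff_subset_sdiff Subset.rfl subset_union_left))
    have h2 : (del G (univ \ (P ∪ P'))).Reachable y b := hP'.2.2.mono
      (del_mono (sdiff_subset_sdiff Subset.rfl subset_union_right))
    exact h1.symm.trans h2
  · have h1 := card_union_add_card_inter P P'
    have h2 : 1 ≤ (P ∩ P').card := card_pos.2 ⟨y, mem_inter.2 ⟨hP.1, hP'.1⟩⟩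
    omega
  · rw [union_inter_distrib_right, hPS, hPS', union_empty]

lemma Lk.anti {l : ℕ} {S S' : Finset V} {a b : V} (h : Lk G l S' a b) (hS : S ⊆ S') :
    Lk G l S a b := by
  obtain ⟨P, hP, hPc, hPS⟩ := h
  refine ⟨P, hP, hPc, ?_⟩
  rw [← subset_empty, ← hPS]
  exact inter_subset_inter_left hS

open Classical in
/-- the members of `I` in the ball around `y` -/
noncomputable def bal (G : SimpleGraph V) (l : ℕ) (S I : Finset V) (y : V) : Finset V :=
  I.filter (fun x => Lk G l S y x)

lemma mem_lp {l : ℕ} {S I : Finset V} {x : V × V} :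
    x ∈ lp G l S I ↔ (x.1 ∈ I ∧ x.2 ∈ I) ∧ Lk G l S x.1 x.2 := by
  classical
  unfold lp
  rw [mem_filter, mem_product]

lemma mem_bal {l : ℕ} {S I : Finset V} {x y : V} :
    x ∈ bal G l S I y ↔ x ∈ I ∧ Lk G l S y x := by
  classical
  unfold bal
  rw [mem_filter]

lemma arithB {D Q a b c d e k : ℕ} (h3 : a + d * d ≤ b + c) (h4 : e ^ 2 ≤ Q * d ^ 2)
    (hSc : D * Q * b + k * e ^ 2 ≤ D * Q * e ^ 2) (hS'c : D * c + d ^ 2 ≤ D * d ^ 2) :
    D * Q * a + (k + 1) * e ^ 2 ≤ D * Q * e ^ 2 := by
  have h5 : D * a + D * d ^ 2 ≤ D * b + D * c := by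
    have := Nat.mul_le_mul_left D h3
    rw [mul_add, mul_add, ← pow_two] at this
    exact this
  have h6 : D * a + d ^ 2 ≤ D * b := by omega
  have h7 : Q * (D * a) + Q * d ^ 2 ≤ Q * (D * b) := by
    rw [← mul_add]
    exact Nat.mul_le_mul_left _ h6
  have h8 : D * Q * a = Q * (D * a) := by ring
  have h9 : D * Q * b = Q * (D * b) := by ring
  rw [h8]
  rw [h9] at hSc
  rw [add_mul, one_mul]
  omega

theorem thmB {ρ n t q : ℕ} (ht : 1 ≤ t) (h : KF G t) (hns : NS G n) (I : Finset V) :
    ∃ S : Finset V, al G S ≤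
      (aD (2 * ρ + 1) (3 * n + 3) t * q ^ 2 + 1) * aC (2 * ρ + 1) (3 * n + 3) t ∧
      ∀ y, q * (bal G (ρ + 1) S I y).card ≤ I.card := by
  classical
  set A := aC (2 * ρ + 1) (3 * n + 3) t with hA
  set D := aD (2 * ρ + 1) (3 * n + 3) t with hD
  by_contra hcon
  push Not at hcon
  have hIpos : 0 < I.card := by
    obtain ⟨y, hy⟩ := hcon ∅ (by rw [al_empty]; exact Nat.zero_le _)
    have : (bal G (ρ + 1) ∅ I y).card ≤ I.card := by
      apply card_le_card
      intro x hx
      exact (mem_bal.1 hx).1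
    by_contra h0
    have h1 : I.card = 0 := by omega
    rw [h1] at this hy
    have h2 : (bal G (ρ + 1) ∅ I y).card = 0 := by omega
    rw [h2] at hy
    simp at hy
  have key : ∀ k, k ≤ D * q ^ 2 + 1 → ∃ S : Finset V, al G S ≤ k * A ∧
      D * q ^ 2 * (lp G (2 * ρ + 1) S I).card + k * I.card ^ 2 ≤ D * q ^ 2 * I.card ^ 2 := by
    intro k
    induction k with
    | zero =>
      intro _
      refine ⟨∅, by rw [al_empty]; exact Nat.zero_le _, ?_⟩
      rw [zero_mul, add_zero]
      apply Nat.mul_le_mul_left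
      have : (lp G (2 * ρ + 1) ∅ I).card ≤ (I ×ˢ I).card := by
        apply card_le_card
        intro x hx
        rw [mem_product]
        exact (mem_lp.1 hx).1
      rw [card_product] at this
      rw [pow_two]
      exact this
    | succ k ih =>
      intro hk
      obtain ⟨S, hS, hSc⟩ := ih (by omega)
      obtain ⟨y, hy⟩ := hcon S (hS.trans (Nat.mul_le_mul_right _ (by omega)))
      set I' := bal G (ρ + 1) S I y with hI'
      have hI'pos : 0 < I'.card := by
        by_contra h0
        have h1 : I'.card = 0 := by omega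
        rw [h1] at hy
        simp at hy
      obtain ⟨S', hS', hS'c⟩ := thmA (l := 2 * ρ + 1) (n := n) (by omega) ht h hns I' hI'pos
      rw [← hA] at hS'
      rw [← hD] at hS'c
      refine ⟨S ∪ S', ?_, ?_⟩
      · refine (al_union_le _ _).trans ?_
        rw [add_mul, one_mul]
        exact Nat.add_le_add hS hS'
      · -- counting
        have hsub1 : I' ×ˢ I' ⊆ lp G (2 * ρ + 1) S I := by
          intro x hx
          rw [mem_product, hI', mem_bal, mem_bal] at hx
          rw [mem_lp]
          exact ⟨⟨hx.1.1, hx.2.1⟩, hx.1.2.comb hx.2.2⟩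
        have hsub2 : lp G (2 * ρ + 1) (S ∪ S') I ⊆
            (lp G (2 * ρ + 1) S I \ (I' ×ˢ I')) ∪ lp G (2 * ρ + 1) S' I' := by
          intro x hx
          rw [mem_lp] at hx
          rw [mem_union, mem_sdiff, mem_lp, mem_lp, mem_product]
          by_cases hx' : x.1 ∈ I' ∧ x.2 ∈ I'
          · right
            exact ⟨hx', hx.2.anti subset_union_right⟩
          · left
            exact ⟨⟨hx.1, hx.2.anti subset_union_left⟩, hx'⟩
        have h1 := (card_le_card hsub2).trans (card_union_le _ _)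
        have h2 := card_sdiff_add_card_eq_card hsub1
        rw [card_product] at h2
        have h3 : (lp G (2 * ρ + 1) (S ∪ S') I).card + I'.card * I'.card ≤
            (lp G (2 * ρ + 1) S I).card + (lp G (2 * ρ + 1) S' I').card := by omega
        have h4 : I.card ^ 2 ≤ q ^ 2 * I'.card ^ 2 := by
          rw [← mul_pow]
          exact Nat.pow_le_pow_left hy.le 2
        exact arithB h3 h4 hSc hS'c
  obtain ⟨S, _, hS⟩ := key (D * q ^ 2 + 1) le_rfl
  have h1 : 0 < I.card ^ 2 := Nat.pow_pos hIpos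
  rw [add_mul, one_mul] at hS
  omega

end Pool.Agent.H20
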