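import Pool.Agent.H20.EP

/-! Spiders: subdivided claws and their relatives with a triangle in the centre. -/

set_option autoImplicit false
set_option linter.unusedSectionVars false

namespace Pool.Agent.H20

open Finset Pool.Agent.H112R3.TA

/-- a complete graph on `γ` together with three pendant paths with `n` vertices each, the path
with number `a` being attached at `q a` -/
def Spi (γ : Type) (q : Fin 3 → γ) (n : ℕ) : SimpleGraph (γ ⊕ (Fin 3 × Fin n)) where
  Adj s t := match s, t with
    | .inl u, .inl v => u ≠ v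
    | .inl u, .inr x => q x.1 = u ∧ x.2.val = 0
    | .inr x, .inl u => q x.1 = u ∧ x.2.val = 0
    | .inr x, .inr y => x.1 = y.1 ∧ (x.2.val + 1 = y.2.val ∨ y.2.val + 1 = x.2.val)
  symm := ⟨by
    rintro (u | x) (v | y) h
    · exact h.symm
    · exact h
    · exact h
    · exact ⟨h.1.symm, h.2.symm⟩⟩
  loopless := ⟨by
    rintro (u | x) h
    · exact h rfl
    · rcases h.2 with h | h <;> omega⟩

/-- the disjoint union of copies of `P` indexed by `ι` -/
def Cop (ι : Type) {α : Type} (P : SimpleGraph α) : SimpleGraph (ι × α) where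
  Adj s t := s.1 = t.1 ∧ P.Adj s.2 t.2
  symm := ⟨fun _ _ h => ⟨h.1.symm, h.2.symm⟩⟩
  loopless := ⟨fun _ h => P.loopless.irrefl _ h.2⟩

variable {V : Type} {G : SimpleGraph V}

/-- `g 0, …, g n` is an induced path -/
def IP (G : SimpleGraph V) (g : ℕ → V) (n : ℕ) : Prop :=
  ∀ i j, i < j → j ≤ n → (G.Adj (g i) (g j) ↔ j = i + 1) ∧ g i ≠ g j

lemma IP.adj {g : ℕ → V} {n : ℕ} (h : IP G g n) {i j : ℕ} (hi : i ≤ n) (hj : j ≤ n) :
    G.Adj (g i) (g j) ↔ (i + 1 = j ∨ j + 1 = i) := by
  rcases lt_trichotomy i j with h1 | h1 | h1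
  · rw [(h i j h1 hj).1]; omega
  · subst h1
    constructor
    · intro h2; exact absurd h2 (G.loopless.irrefl _)
    · intro h2; omega
  · rw [G.adj_comm, (h j i h1 hi).1]; omega

lemma IP.inj {g : ℕ → V} {n : ℕ} (h : IP G g n) {i j : ℕ} (hi : i ≤ n) (hj : j ≤ n)
    (he : g i = g j) : i = j := by
  rcases lt_trichotomy i j with h1 | h1 | h1
  · exact absurd he (h i j h1 hj).2
  · exact h1
  · exact absurd he.symm (h j i h1 hi).2

lemma IP.mono {g : ℕ → V} {n m : ℕ} (h : IP G g n) (hm : m ≤ n) : IP G g m :=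
  fun i j hij hj => h i j hij (hj.trans hm)

lemma IP.shift {g : ℕ → V} {n : ℕ} (h : IP G g n) (k m : ℕ) (hk : k + m ≤ n) :
    IP G (fun i => g (k + i)) m := by
  intro i j hij hj
  have := h (k + i) (k + j) (by omega) (by omega)
  refine ⟨?_, this.2⟩
  rw [this.1]
  omega

lemma IP.rev {g : ℕ → V} {n : ℕ} (h : IP G g n) (k m : ℕ) (hk : k ≤ n) (hm : m ≤ k) :
    IP G (fun i => g (k - i)) m := by
  intro i j hij hj
  have := h (k - j) (k - i) (by omega) (by omega)
  refine ⟨?_, this.2.symm⟩
  rw [G.adj_comm, this.1]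
  omega

theorem mkSpi {γ : Type} {q : Fin 3 → γ} {n : ℕ} (c : γ → V) (g : Fin 3 → ℕ → V)
    (h0 : ∀ a, g a 0 = c (q a)) (h1 : ∀ u v, u ≠ v → G.Adj (c u) (c v))
    (h2 : ∀ a, IP G (g a) n)
    (h3 : ∀ a b, a ≠ b → ∀ i j, 1 ≤ i → i ≤ n → 1 ≤ j → j ≤ n →
      ¬ G.Adj (g a i) (g b j) ∧ g a i ≠ g b j)
    (h4 : ∀ u b, u ≠ q b → ∀ j, 1 ≤ j → j ≤ n → ¬ G.Adj (c u) (g b j) ∧ c u ≠ g b j) :
    Nonempty (Spi γ q n ↪g G) := by
  let F : γ ⊕ (Fin 3 × Fin n) → V := fun s => match s with
    | .inl u => c u
    | .inr x => g x.1 (x.2.val + 1)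
  have hcg : ∀ (u : γ) (x : Fin 3 × Fin n),
      (G.Adj (c u) (g x.1 (x.2.val + 1)) ↔ (q x.1 = u ∧ x.2.val = 0)) ∧
        c u ≠ g x.1 (x.2.val + 1) := by
    intro u x
    have hx := x.2.isLt
    by_cases hu : u = q x.1
    · subst hu
      rw [← h0]
      have := h2 x.1 0 (x.2.val + 1) (by omega) (by omega)
      refine ⟨?_, this.2⟩
      rw [this.1]
      simp
    · have := h4 u x.1 hu (x.2.val + 1) (by omega) (by omega)
      refine ⟨?_, this.2⟩
      constructor
      · intro h; exact absurd h this.1
      · intro h; exact absurd h.1.symm hu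
  have hadj : ∀ s t, G.Adj (F s) (F t) ↔ (Spi γ q n).Adj s t := by
    rintro (u | x) (v | y)
    · change G.Adj (c u) (c v) ↔ u ≠ v
      constructor
      · rintro h rfl; exact G.loopless.irrefl _ h
      · exact h1 u v
    · exact (hcg u y).1
    · change G.Adj (g x.1 (x.2.val + 1)) (c v) ↔ _
      rw [G.adj_comm]
      exact (hcg v x).1
    · change G.Adj (g x.1 (x.2.val + 1)) (g y.1 (y.2.val + 1)) ↔
        (x.1 = y.1 ∧ (x.2.val + 1 = y.2.val ∨ y.2.val + 1 = x.2.val))
      have hx := x.2.isLt
      have hy := y.2.isLt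
      by_cases hxy : x.1 = y.1
      · rw [hxy, (h2 y.1).adj (by omega) (by omega)]
        constructor
        · intro h; exact ⟨rfl, by omega⟩
        · intro h; omega
      · constructor
        · intro h
          exact absurd h (h3 x.1 y.1 hxy _ _ (by omega) (by omega) (by omega) (by omega)).1
        · intro h; exact absurd h.1 hxy
  have hinj : Function.Injective F := by
    rintro (u | x) (v | y) h
    · by_contra hne
      have hne' : u ≠ v := fun h' => hne (by rw [h'])
      have h5 := h1 u v hne'
      change c u = c v at h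
      rw [h] at h5
      exact G.loopless.irrefl _ h5
    · exact absurd h (hcg u y).2
    · exact absurd h.symm (hcg v x).2
    · change g x.1 (x.2.val + 1) = g y.1 (y.2.val + 1) at h
      have hx := x.2.isLt
      have hy := y.2.isLt
      by_cases hxy : x.1 = y.1
      · rw [hxy] at h
        have := (h2 y.1).inj (by omega) (by omega) h
        have h6 : x.2 = y.2 := Fin.ext (by omega)
        congr 1
        exact Prod.ext hxy h6
      · exact absurd h (h3 x.1 y.1 hxy _ _ (by omega) (by omega) (by omega) (by omega)).2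
  exact ⟨⟨⟨F, hinj⟩, fun {s t} => hadj s t⟩⟩

/-- the subdivided claw -/
abbrev SS (n : ℕ) := Spi Unit (fun _ => ()) n
/-- the triangle with three pendant paths -/
abbrev LL (n : ℕ) := Spi (Fin 3) id n

/-- `G` has neither of the two spiders -/
def NS (G : SimpleGraph V) (n : ℕ) : Prop :=
  IsEmpty (SS n ↪g G) ∧ IsEmpty (LL n ↪g G)

/-- `a` and `b` are the two ends of a path whose first and last neighbours of `y` are `a 0` and
`b 0` -/
structure Pass (G : SimpleGraph V) (n : ℕ) (y : V) (a b : ℕ → V) : Prop where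
  ia : IP G a n
  ib : IP G b n
  ya : G.Adj y (a 0)
  yb : G.Adj y (b 0)
  na : ∀ k, 1 ≤ k → k ≤ n → ¬ G.Adj y (a k)
  nb : ∀ k, 1 ≤ k → k ≤ n → ¬ G.Adj y (b k)
  da : ∀ k ≤ n, y ≠ a k
  db : ∀ k ≤ n, y ≠ b k
  ab : ∀ i ≤ n, ∀ j ≤ n, ((1 ≤ i ∧ 1 ≤ j) ∨ (a 0 ≠ b 0 ∧ 0 < i + j)) →
    ¬ G.Adj (a i) (b j) ∧ a i ≠ b j

theorem tripod {n : ℕ} {T a b : ℕ → V} (h : Pass G n (T 0) a b) (hT : IP G T n)
    (hTa : ∀ i, 1 ≤ i → i ≤ n → ∀ j ≤ n, ¬ G.Adj (T i) (a j) ∧ T i ≠ a j)
    (hTb : ∀ i, 1 ≤ i → i ≤ n → ∀ j ≤ n, ¬ G.Adj (T i) (b j) ∧ T i ≠ b j) : ¬ NS G n := by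
  rintro ⟨hS, hL⟩
  by_cases h0 : a 0 = b 0
  · -- centre at `a 0`
    have hT' : IP G (fun i => if i = 0 then a 0 else T (i - 1)) n := by
      intro i j hij hj
      simp only
      rw [if_neg (by omega : ¬ j = 0)]
      by_cases hi : i = 0
      · subst hi
        rw [if_pos rfl]
        by_cases hj1 : j = 1
        · subst hj1
          exact ⟨⟨fun _ => rfl, fun _ => h.ya.symm⟩, (h.da 0 (by omega)).symm⟩
        · have := hTa (j - 1) (by omega) (by omega) 0 (by omega)
          refine ⟨⟨fun h' => absurd h'.symm this.1, fun h' => by omega⟩, this.2.symm⟩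
      · rw [if_neg hi]
        have := hT (i - 1) (j - 1) (by omega) (by omega)
        refine ⟨?_, this.2⟩
        rw [this.1]
        omega
    have := mkSpi (G := G) (γ := Unit) (q := fun _ => ()) (n := n) (fun _ => a 0)
      (fun k => if k = 0 then a else if k = 1 then b else
        (fun i => if i = 0 then a 0 else T (i - 1)))
      (by intro k; fin_cases k <;> simp [h0])
      (by intro u v huv; exact absurd rfl huv)
      (by
        intro k
        fin_cases k
        · simpa using h.ia
        · simpa using h.ib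
        · simpa using hT')
      (by
        have hab : ∀ i j, 1 ≤ i → i ≤ n → 1 ≤ j → j ≤ n → ¬ G.Adj (a i) (b j) ∧ a i ≠ b j :=
          fun i j h1 h2 h3 h4 => h.ab i h2 j h4 (Or.inl ⟨h1, h3⟩)
        have haT : ∀ i j, 1 ≤ i → i ≤ n → 1 ≤ j → j ≤ n →
            ¬ G.Adj (a i) (if j = 0 then a 0 else T (j - 1)) ∧
              a i ≠ (if j = 0 then a 0 else T (j - 1)) := by
          intro i j h1 h2 h3 h4
          rw [if_neg (by omega)]
          by_cases hj : j = 1
          · subst hj
            exact ⟨fun h' => h.na i h1 h2 h'.symm, (h.da i h2).symm⟩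
          · have := hTa (j - 1) (by omega) (by omega) i h2
            exact ⟨fun h' => this.1 h'.symm, this.2.symm⟩
        have hbT : ∀ i j, 1 ≤ i → i ≤ n → 1 ≤ j → j ≤ n →
            ¬ G.Adj (b i) (if j = 0 then a 0 else T (j - 1)) ∧
              b i ≠ (if j = 0 then a 0 else T (j - 1)) := by
          intro i j h1 h2 h3 h4
          rw [if_neg (by omega)]
          by_cases hj : j = 1
          · subst hj
            exact ⟨fun h' => h.nb i h1 h2 h'.symm, (h.db i h2).symm⟩
          · have := hTb (j - 1) (by omega) (by omega) i h2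
            exact ⟨fun h' => this.1 h'.symm, this.2.symm⟩
        intro k l hkl i j h1 h2 h3 h4
        fin_cases k <;> fin_cases l
        · exact absurd rfl hkl
        · simpa using hab i j h1 h2 h3 h4
        · simpa using haT i j h1 h2 h3 h4
        · simpa [G.adj_comm, eq_comm] using hab j i h3 h4 h1 h2
        · exact absurd rfl hkl
        · simpa using hbT i j h1 h2 h3 h4
        · simpa [G.adj_comm, eq_comm] using haT j i h3 h4 h1 h2
        · simpa [G.adj_comm, eq_comm] using hbT j i h3 h4 h1 h2
        · exact absurd rfl hkl)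
      (by intro u k hu; exact absurd rfl hu)
    exact hS.false this.some
  by_cases h01 : G.Adj (a 0) (b 0)
  · -- triangle
    have hab : ∀ i j, i ≤ n → j ≤ n → 0 < i + j → ¬ G.Adj (a i) (b j) ∧ a i ≠ b j :=
      fun i j h2 h4 h5 => h.ab i h2 j h4 (Or.inr ⟨h0, h5⟩)
    have haT : ∀ i j, i ≤ n → j ≤ n → 0 < i + j → ¬ G.Adj (a i) (T j) ∧ a i ≠ T j := by
      intro i j h1 h2 h3
      by_cases hj : j = 0
      · subst hj
        exact ⟨fun h' => h.na i (by omega) h1 h'.symm, (h.da i h1).symm⟩
      · have := hTa j (by omega) h2 i h1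
        exact ⟨fun h' => this.1 h'.symm, this.2.symm⟩
    have hbT : ∀ i j, i ≤ n → j ≤ n → 0 < i + j → ¬ G.Adj (b i) (T j) ∧ b i ≠ T j := by
      intro i j h1 h2 h3
      by_cases hj : j = 0
      · subst hj
        exact ⟨fun h' => h.nb i (by omega) h1 h'.symm, (h.db i h1).symm⟩
      · have := hTb j (by omega) h2 i h1
        exact ⟨fun h' => this.1 h'.symm, this.2.symm⟩
    have key : ∀ k l : Fin 3, k ≠ l → ∀ i j, i ≤ n → j ≤ n → 0 < i + j →
        ¬ G.Adj ((fun k : Fin 3 => if k = 0 then a else if k = 1 then b else T) k i)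
          ((fun k : Fin 3 => if k = 0 then a else if k = 1 then b else T) l j) ∧
        (fun k : Fin 3 => if k = 0 then a else if k = 1 then b else T) k i ≠
          (fun k : Fin 3 => if k = 0 then a else if k = 1 then b else T) l j := by
      intro k l hkl i j h2 h4 h5
      fin_cases k <;> fin_cases l
      · exact absurd rfl hkl
      · simpa using hab i j h2 h4 h5
      · simpa using haT i j h2 h4 h5
      · simpa [G.adj_comm, eq_comm] using hab j i h4 h2 (by omega)
      · exact absurd rfl hkl
      · simpa using hbT i j h2 h4 h5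
      · simpa [G.adj_comm, eq_comm] using haT j i h4 h2 (by omega)
      · simpa [G.adj_comm, eq_comm] using hbT j i h4 h2 (by omega)
      · exact absurd rfl hkl
    have := mkSpi (G := G) (γ := Fin 3) (q := id) (n := n)
      (fun k => (fun k : Fin 3 => if k = 0 then a else if k = 1 then b else T) k 0)
      (fun k : Fin 3 => if k = 0 then a else if k = 1 then b else T)
      (by intro k; rfl)
      (by
        intro u v huv
        fin_cases u <;> fin_cases v
        · exact absurd rfl huv
        · simpa using h01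
        · simpa using h.ya.symm
        · simpa using h01.symm
        · exact absurd rfl huv
        · simpa using h.yb.symm
        · simpa using h.ya
        · simpa using h.yb
        · exact absurd rfl huv)
      (by
        intro k
        fin_cases k
        · simpa using h.ia
        · simpa using h.ib
        · simpa using hT)
      (fun k l hkl i j h1 h2 h3 h4 => key k l hkl i j h2 h4 (by omega))
      (fun k l hkl j h3 h4 => key k l hkl 0 j (by omega) h4 (by omega))
    exact hL.false this.some
  · -- centre at `T 0`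
    have hext : ∀ g : ℕ → V, IP G g n → G.Adj (T 0) (g 0) →
        (∀ k, 1 ≤ k → k ≤ n → ¬ G.Adj (T 0) (g k)) → (∀ k ≤ n, T 0 ≠ g k) →
        IP G (fun i => if i = 0 then T 0 else g (i - 1)) n := by
      intro g hg hy hn hd i j hij hj
      simp only
      rw [if_neg (by omega : ¬ j = 0)]
      by_cases hi : i = 0
      · subst hi
        rw [if_pos rfl]
        by_cases hj1 : j = 1
        · subst hj1
          exact ⟨⟨fun _ => rfl, fun _ => hy⟩, hd 0 (by omega)⟩
        · refine ⟨⟨fun h' => absurd h' (hn (j - 1) (by omega) (by omega)), fun h' => by omega⟩,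
            hd (j - 1) (by omega)⟩
      · rw [if_neg hi]
        have := hg (i - 1) (j - 1) (by omega) (by omega)
        refine ⟨?_, this.2⟩
        rw [this.1]
        omega
    have hA := hext a h.ia h.ya h.na h.da
    have hB := hext b h.ib h.yb h.nb h.db
    have := mkSpi (G := G) (γ := Unit) (q := fun _ => ()) (n := n) (fun _ => T 0)
      (fun k => if k = 0 then (fun i => if i = 0 then T 0 else a (i - 1)) else
        if k = 1 then (fun i => if i = 0 then T 0 else b (i - 1)) else T)
      (by intro k; fin_cases k <;> simp)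
      (by intro u v huv; exact absurd rfl huv)
      (by
        intro k
        fin_cases k
        · simpa using hA
        · simpa using hB
        · simpa using hT)
      (by
        have hab : ∀ i j, 1 ≤ i → i ≤ n → 1 ≤ j → j ≤ n →
            ¬ G.Adj (if i = 0 then T 0 else a (i - 1)) (if j = 0 then T 0 else b (j - 1)) ∧
              (if i = 0 then T 0 else a (i - 1)) ≠ (if j = 0 then T 0 else b (j - 1)) := by
          intro i j h1 h2 h3 h4
          rw [if_neg (by omega), if_neg (by omega)]
          by_cases h5 : 0 < (i - 1) + (j - 1)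
          · exact h.ab (i - 1) (by omega) (j - 1) (by omega) (Or.inr ⟨h0, h5⟩)
          · have hi : i = 1 := by omega
            have hj : j = 1 := by omega
            subst hi; subst hj
            exact ⟨h01, h0⟩
        have haT : ∀ i j, 1 ≤ i → i ≤ n → 1 ≤ j → j ≤ n →
            ¬ G.Adj (if i = 0 then T 0 else a (i - 1)) (T j) ∧
              (if i = 0 then T 0 else a (i - 1)) ≠ T j := by
          intro i j h1 h2 h3 h4
          rw [if_neg (by omega)]
          have := hTa j h3 h4 (i - 1) (by omega)
          exact ⟨fun h' => this.1 h'.symm, this.2.symm⟩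
        have hbT : ∀ i j, 1 ≤ i → i ≤ n → 1 ≤ j → j ≤ n →
            ¬ G.Adj (if i = 0 then T 0 else b (i - 1)) (T j) ∧
              (if i = 0 then T 0 else b (i - 1)) ≠ T j := by
          intro i j h1 h2 h3 h4
          rw [if_neg (by omega)]
          have := hTb j h3 h4 (i - 1) (by omega)
          exact ⟨fun h' => this.1 h'.symm, this.2.symm⟩
        intro k l hkl i j h1 h2 h3 h4
        fin_cases k <;> fin_cases l
        · exact absurd rfl hkl
        · simpa using hab i j h1 h2 h3 h4
        · simpa using haT i j h1 h2 h3 h4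
        · simpa [G.adj_comm, eq_comm] using hab j i h3 h4 h1 h2
        · exact absurd rfl hkl
        · simpa using hbT i j h1 h2 h3 h4
        · simpa [G.adj_comm, eq_comm] using haT j i h3 h4 h1 h2
        · simpa [G.adj_comm, eq_comm] using hbT j i h3 h4 h1 h2
        · exact absurd rfl hkl)
      (by intro u k hu; exact absurd rfl hu)
    exact hS.false this.some

/-- the vertices of a passage -/
noncomputable def pset [DecidableEq V] (n : ℕ) (a b : ℕ → V) : Finset V :=
  (range (n + 1)).image a ∪ (range (n + 1)).image b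

lemma mem_pset_a [DecidableEq V] {n : ℕ} {a b : ℕ → V} {i : ℕ} (hi : i ≤ n) :
    a i ∈ pset n a b :=
  mem_union_left _ (mem_image.2 ⟨i, mem_range.2 (by omega), rfl⟩)

lemma mem_pset_b [DecidableEq V] {n : ℕ} {a b : ℕ → V} {i : ℕ} (hi : i ≤ n) :
    b i ∈ pset n a b :=
  mem_union_right _ (mem_image.2 ⟨i, mem_range.2 (by omega), rfl⟩)

/-- all passages around `y` are hit by a set of small independence number -/
theorem hit_pass [Fintype V] [DecidableEq V] {n t : ℕ} (ht : 1 ≤ t) (h : KF G t) (hns : NS G n)
    (y : V) : ∃ S : Finset V, al G S ≤ eC (2 * n + 2) 2 t ∧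
      ∀ a b, Pass G n y a b → (pset n a b ∩ S).Nonempty := by
  classical
  obtain ⟨S, hS, hS'⟩ := ep (G := G) (l := 2 * n + 2) (M := 2) (by omega) ht h
    (fun F => ∃ a b, Pass G n y a b ∧ F = pset n a b) (by
      rintro F ⟨a, b, _, rfl⟩
      unfold pset
      refine (card_union_le _ _).trans ?_
      have h1 := card_image_le (s := range (n + 1)) (f := a)
      have h2 := card_image_le (s := range (n + 1)) (f := b)
      rw [card_range] at h1 h2
      omega) (by
      intro e he hanti
      obtain ⟨a, b, hab, he0⟩ := he 0 (by omega)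
      obtain ⟨a', b', hab', he1⟩ := he 1 (by omega)
      have hanti' := hanti 1 (by omega) 0 (by omega)
      rw [he0, he1] at hanti'
      let T : ℕ → V := fun i => if i = 0 then y else a' (i - 1)
      have hT : IP G T n := by
        intro i j hij hj
        simp only [T]
        rw [if_neg (by omega : ¬ j = 0)]
        by_cases hi : i = 0
        · subst hi
          rw [if_pos rfl]
          by_cases hj1 : j = 1
          · subst hj1
            exact ⟨⟨fun _ => rfl, fun _ => hab'.ya⟩, hab'.da 0 (by omega)⟩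
          · refine ⟨⟨fun h' => absurd h' (hab'.na (j - 1) (by omega) (by omega)),
              fun h' => by omega⟩, hab'.da (j - 1) (by omega)⟩
        · rw [if_neg hi]
          have := hab'.ia (i - 1) (j - 1) (by omega) (by omega)
          refine ⟨?_, this.2⟩
          rw [this.1]
          omega
      refine tripod (T := T) (a := a) (b := b) (n := n) (by simpa [T] using hab) hT ?_ ?_ hns
      · intro i h1 h2 j hj
        simp only [T]
        rw [if_neg (by omega)]
        have := hanti' (a' (i - 1)) (mem_pset_a (by omega)) (a j) (mem_pset_a hj)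
        push Not at this
        exact ⟨fun h' => this.1 h'.symm, this.2.symm⟩
      · intro i h1 h2 j hj
        simp only [T]
        rw [if_neg (by omega)]
        have := hanti' (a' (i - 1)) (mem_pset_a (by omega)) (b j) (mem_pset_b hj)
        push Not at this
        exact ⟨fun h' => this.1 h'.symm, this.2.symm⟩)
  exact ⟨S, hS, fun a b hab => hS' _ ⟨a, b, hab, rfl⟩⟩

/-- a vertex with neighbours in the middle of an induced path gives a passage -/
theorem exists_pass {n r s k0 : ℕ} {f : ℕ → V} {v : V} (hf : IP G f r) (hv : ∀ k ≤ r, v ≠ f k)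
    (hk0 : k0 ≤ r) (hadj : G.Adj v (f k0)) (hs : s ≤ r)
    (hmid : ∀ k ≤ r, G.Adj v (f k) → n ≤ k ∧ k + n ≤ s) :
    ∃ i j, n ≤ i ∧ i ≤ j ∧ j + n ≤ s ∧ Pass G n v (fun k => f (i - k)) (fun k => f (j + k)) := by
  classical
  have hex : ∃ k, k ≤ r ∧ G.Adj v (f k) := ⟨k0, hk0, hadj⟩
  obtain ⟨i, hi, hmin⟩ : ∃ i, (i ≤ r ∧ G.Adj v (f i)) ∧ ∀ k < i, ¬ (k ≤ r ∧ G.Adj v (f k)) :=
    ⟨Nat.find hex, Nat.find_spec hex, fun k hk => Nat.find_min hex hk⟩
  obtain ⟨j, hj, hmax⟩ : ∃ j, (j ≤ r ∧ G.Adj v (f j)) ∧ ∀ k, j < k → k ≤ r → ¬ G.Adj v (f k) := by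
    have hne : ((range (r + 1)).filter (fun k => G.Adj v (f k))).Nonempty :=
      ⟨k0, mem_filter.2 ⟨mem_range.2 (by omega), hadj⟩⟩
    refine ⟨((range (r + 1)).filter (fun k => G.Adj v (f k))).max' hne, ?_, ?_⟩
    · have := max'_mem _ hne
      rw [mem_filter, mem_range] at this
      exact ⟨by omega, this.2⟩
    · intro k hk hkr hadj'
      have := le_max' ((range (r + 1)).filter (fun k => G.Adj v (f k))) k
        (mem_filter.2 ⟨mem_range.2 (by omega), hadj'⟩)
      omega
  have hij : i ≤ j := by
    by_contra hcon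
    exact hmin j (by omega) hj
  have hni := (hmid i hi.1 hi.2).1
  have hnj := (hmid j hj.1 hj.2).2
  refine ⟨i, j, hni, hij, hnj, ?_, ?_, ?_, ?_, ?_, ?_, ?_, ?_, ?_⟩
  · exact hf.rev i n hi.1 hni
  · exact hf.shift j n (by omega)
  · simpa using hi.2
  · simpa using hj.2
  · intro k h1 h2 h3
    exact hmin (i - k) (by omega) ⟨by omega, h3⟩
  · intro k h1 h2 h3
    exact hmax (j + k) (by omega) (by omega) h3
  · intro k hk
    exact hv _ (by omega)
  · intro k hk
    exact hv _ (by omega)
  · intro k hk l hl hkl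
    have hne : k + l + (j - i) ≥ 2 := by
      rcases hkl with h | ⟨h, h'⟩
      · omega
      · have : i ≠ j := by
          rintro rfl
          exact h (by simp)
        omega
    have := hf (i - k) (j + l) (by omega) (by omega)
    refine ⟨?_, this.2⟩
    rw [this.1]
    omega

end Pool.Agent.H20
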